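import Mathlib

/-!
# MP_58a0a5_lc: the abstract part

An ordered commutative monoid with the decomposition property, with elements `ι`, `θ`, `ρ`.
-/

namespace Pool.Agent.CeerI

section

variable {M : Type} [PartialOrder M]

/-- `j` is the least upper bound of `x` and `y`. -/
def IsJoin (x y j : M) : Prop := x ≤ j ∧ y ≤ j ∧ ∀ u, x ≤ u → y ≤ u → j ≤ u

/-- `x` is a least element. -/
def IsLeast' (x : M) : Prop := ∀ v, x ≤ v

/-- `x` is minimal among the elements which are not least. -/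
def IsAtom' (x : M) : Prop := ¬ IsLeast' x ∧ ∀ w, w ≤ x → IsLeast' w ∨ w = x

/-- There is `z > x` with `[0, z] = {0, x, z}`, such that for all `r ≥ x` with `r ≱ z` the join `j` of
`r` and `z` exists and there is nothing strictly between `r` and `j`. -/
def HasCover (x : M) : Prop := ∃ z, x ≤ z ∧ x ≠ z ∧ (∀ w, w ≤ z → IsLeast' w ∨ w = x ∨ w = z) ∧
  ∀ r, x ≤ r → ¬ z ≤ r → ∃ j, IsJoin r z j ∧ ∀ s, r ≤ s → s ≤ j → s = r ∨ s = j

/-- The defining property of `Id`. -/
def Phi (x : M) : Prop := IsAtom' x ∧ (∀ y, ∃ j, IsJoin x y j) ∧ ¬ HasCover x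

end

variable {M : Type} [PartialOrder M] [AddCommMonoid M]

/-- The decomposition property. -/
structure Decomp (M : Type) [PartialOrder M] [AddCommMonoid M] : Prop where
  zero_le : ∀ a : M, 0 ≤ a
  mono : ∀ a a' b b' : M, a ≤ a' → b ≤ b' → a + b ≤ a' + b'
  split : ∀ s r q : M, s ≤ r + q → ∃ s₁ s₂, s₁ ≤ r ∧ s₂ ≤ q ∧ s = s₁ + s₂

namespace Decomp

theorem isLeast'_iff (h : Decomp M) (x : M) : IsLeast' x ↔ x = 0 :=
  ⟨fun hx => le_antisymm (hx 0) (h.zero_le x), fun hx v => hx ▸ h.zero_le v⟩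

theorem le_left (h : Decomp M) (a b : M) : a ≤ a + b := by
  have := h.mono a a 0 b le_rfl (h.zero_le b)
  rwa [add_zero] at this

theorem le_right (h : Decomp M) (a b : M) : b ≤ a + b := by
  rw [add_comm]; exact h.le_left b a

/-- Nothing is strictly between `r` and `r + x` for an atom `x` with `x + x ≰ r`. -/
theorem gap (h : Decomp M) {x : M} (hx : ∀ w, w ≤ x → w = 0 ∨ w = x) {r s : M}
    (hr : ¬ x + x ≤ r) (h1 : r ≤ s) (h2 : s ≤ r + x) : s = r ∨ s = r + x := by
  obtain ⟨s₁, s₂, hs₁, hs₂, rfl⟩ := h.split s r x h2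
  rcases hx s₂ hs₂ with rfl | rfl
  · rw [add_zero] at h1 ⊢
    exact Or.inl (le_antisymm hs₁ h1)
  · obtain ⟨r₁, r₂, hr₁, hr₂, rfl⟩ := h.split r s₁ s₂ h1
    rcases hx r₂ hr₂ with rfl | rfl
    · rw [add_zero] at hs₁ ⊢
      rw [le_antisymm hs₁ hr₁]
      exact Or.inr rfl
    · obtain ⟨t₁, t₂, ht₁, ht₂, rfl⟩ := h.split s₁ r₁ r₂ hs₁
      rcases hx t₂ ht₂ with rfl | rfl
      · rw [add_zero] at hr₁ ⊢
        rw [le_antisymm ht₁ hr₁]
        exact Or.inl rfl
      · obtain ⟨u₁, u₂, hu₁, hu₂, rfl⟩ := h.split r₁ t₁ t₂ hr₁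
        rcases hx u₂ hu₂ with rfl | rfl
        · rw [add_zero] at ht₁ ⊢
          rw [le_antisymm ht₁ hu₁]
          exact Or.inr rfl
        · exact absurd (h.mono _ _ _ _ (h.le_right u₁ u₂) le_rfl) hr

end Decomp

/-- The elements `Id`, `θ`, `ρ`. -/
structure Elts (ι θ ρ : M) (C : M → Prop) : Prop where
  ne : ι ≠ 0
  atom : ∀ w, w ≤ ι → w = 0 ∨ w = ι
  idem : ι + ι = ι
  join : ∀ y z, ¬ ι ≤ y → y ≤ z → ι ≤ z → y + ι ≤ z
  theta_le : ι ≤ θ
  theta_ne : θ ≠ ι
  theta_down : ∀ w, w ≤ θ → w = 0 ∨ w = ι ∨ w = θ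
  theta_add : ¬ θ + ι ≤ θ
  theta_join : ∀ x, ¬ ι ≤ x → ¬ C x → ∃ z, x ≤ z ∧ θ ≤ z ∧ ¬ x + θ ≤ z
  rho : ¬ ι ≤ ρ
  rhoC : ¬ C ρ
  dark_ne : ∀ x, x ≠ 0 → ¬ ι ≤ x → ¬ x + x ≤ x
  dark_join : ∀ x, (∀ w, w ≤ x → w = 0 ∨ w = x) → C x → ∀ r z, ¬ x + x ≤ r → r ≤ z →
    x + x ≤ z → r + x ≤ z

namespace Elts

variable {ι θ ρ : M} {C : M → Prop}

/-- If a dark element has a join with `θ` then it satisfies `C`. -/
theorem C_of_join (h : Decomp M) (e : Elts ι θ ρ C) {x j : M} (hx : ¬ ι ≤ x)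
    (hj : IsJoin x θ j) : C x := by
  by_contra hC
  obtain ⟨z, hz1, hz2, hz3⟩ := e.theta_join x hx hC
  obtain ⟨j1, j2, hj3⟩ := hj
  apply hz3
  refine le_trans ?_ (hj3 z hz1 hz2)
  obtain ⟨a, b, ha, hb, rfl⟩ := h.split j x θ (hj3 _ (h.le_left x θ) (h.le_right x θ))
  -- `θ ≤ b`
  have hθb : θ ≤ b := by
    obtain ⟨t, u, ht, hu, htu⟩ := h.split θ a b j2
    have ht' : t ≤ θ := htu ▸ h.le_left t u
    rcases e.theta_down t ht' with rfl | rfl | rfl
    · rw [zero_add] at htu
      rw [htu]; exact hu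
    · exact absurd (ht.trans ha) hx
    · exact absurd (e.theta_le.trans (ht.trans ha)) hx
  have hxa : x ≤ a := by
    obtain ⟨t, u, ht, hu, htu⟩ := h.split x a b j1
    have hu' : u ≤ x := htu ▸ h.le_right t u
    rcases e.theta_down u (hu.trans hb) with rfl | rfl | rfl
    · rw [add_zero] at htu
      rw [htu]; exact ht
    · exact absurd hu' hx
    · exact absurd (e.theta_le.trans hu') hx
  exact h.mono _ _ _ _ hxa hθb

/-- Id has a join with everything. -/
theorem join_exists (h : Decomp M) (e : Elts ι θ ρ C) (y : M) : ∃ j, IsJoin ι y j := by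
  by_cases hy : ι ≤ y
  · exact ⟨y, hy, le_rfl, fun u _ h2 => h2⟩
  · exact ⟨y + ι, h.le_right _ _, h.le_left _ _, fun u h1 h2 => e.join y u hy h2 h1⟩

/-- No cover for `Id`. -/
theorem no_cover (h : Decomp M) (e : Elts ι θ ρ C) : ¬ HasCover ι := by
  rintro ⟨z, hz1, hz2, hz3, hz4⟩
  simp only [h.isLeast'_iff] at hz3
  by_cases hzθ : z = θ
  · subst hzθ
    -- `r = ρ + ι`
    have h1 : ¬ z ≤ ρ + ι := by
      intro hle
      obtain ⟨a, b, ha, hb, hab⟩ := h.split z ρ ι hle
      have ha' : a ≤ z := hab ▸ h.le_left a b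
      rcases hz3 a ha' with rfl | rfl | rfl
      · rw [zero_add] at hab
        subst hab
        exact hz2 (le_antisymm hz1 hb)
      · exact e.rho ha
      · exact e.rho (hz1.trans ha)
    obtain ⟨j, ⟨hj1, hj2, hj3⟩, -⟩ := hz4 (ρ + ι) (h.le_right _ _) h1
    apply e.rhoC
    refine e.C_of_join h e.rho (j := j) ⟨(h.le_left _ _).trans hj1, hj2, fun u hu1 hu2 => ?_⟩
    exact hj3 u (e.join ρ u e.rho hu1 (hz1.trans hu2)) hu2
  · -- `r = θ`
    have h1 : ¬ z ≤ θ := by
      intro hle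
      rcases e.theta_down z hle with rfl | rfl | rfl
      · exact e.ne (le_antisymm hz1 (h.zero_le _))
      · exact hz2 rfl
      · exact hzθ rfl
    obtain ⟨j, ⟨hj1, hj2, hj3⟩, hj4⟩ := hz4 θ e.theta_le h1
    obtain ⟨a, b, ha, hb, rfl⟩ := h.split j θ z (hj3 _ (h.le_left _ _) (h.le_right _ _))
    -- `b = z`
    have hbz : b = z := by
      obtain ⟨t, u, ht, hu, htu⟩ := h.split z a b hj2
      have ht' : t ≤ z := htu ▸ h.le_left t u
      have hu' : u ≤ z := htu ▸ h.le_right t u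
      have huz : u = z := by
        rcases hz3 u hu' with rfl | rfl | rfl
        · rw [add_zero] at htu
          subst htu
          exact absurd (ht.trans ha) h1
        · rcases hz3 t ht' with rfl | rfl | rfl
          · rw [zero_add] at htu
            exact absurd htu.symm hz2
          · rw [e.idem] at htu
            exact absurd htu.symm hz2
          · exact absurd (ht.trans ha) h1
        · rfl
      subst huz
      exact le_antisymm hb hu
    subst hbz
    -- `θ ≤ a + ι`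
    have hr : θ ≤ a + ι := by
      obtain ⟨t, u, ht, hu, htu⟩ := h.split θ a b hj1
      have hu2 : u ≤ θ := htu ▸ h.le_right t u
      rcases hz3 u hu with rfl | rfl | rfl
      · rw [add_zero] at htu
        rw [htu]
        exact ht.trans (h.le_left _ _)
      · rw [htu]
        exact h.mono _ _ _ _ ht le_rfl
      · exact absurd hu2 h1
    rcases hj4 (a + ι) hr (h.mono _ _ _ _ le_rfl hz1) with hs | hs
    · apply e.theta_add
      have : θ + ι = θ := by
        rw [← hs, add_assoc, e.idem]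
      rw [this]
    · have hle : b ≤ a + ι := hs ▸ hj2
      obtain ⟨t, u, ht, hu, htu⟩ := h.split b a ι hle
      have ht' : t ≤ b := htu ▸ h.le_left t u
      rcases hz3 t ht' with rfl | rfl | rfl
      · rw [zero_add] at htu
        subst htu
        exact hz2 (le_antisymm hz1 hu)
      · rcases e.atom u hu with rfl | rfl
        · rw [add_zero] at htu
          exact hz2 htu.symm
        · rw [e.idem] at htu
          exact hz2 htu.symm
      · exact h1 (ht.trans ha)

/-- The main abstract statement. -/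
theorem phi_iff (h : Decomp M) (e : Elts ι θ ρ C) (x : M) : Phi x ↔ x = ι := by
  constructor
  · rintro ⟨⟨hx1, hx2⟩, hx3, hx4⟩
    by_contra hne
    rw [h.isLeast'_iff] at hx1
    simp only [h.isLeast'_iff] at hx2
    have hdark : ¬ ι ≤ x := by
      intro hle
      rcases hx2 ι hle with h0 | h0
      · exact e.ne h0
      · exact hne h0.symm
    obtain ⟨j, hj⟩ := hx3 θ
    have hC : C x := e.C_of_join h hdark hj
    apply hx4
    refine ⟨x + x, h.le_left x x, fun he => e.dark_ne x hx1 hdark (le_of_eq he.symm), ?_, ?_⟩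
    · intro w hw
      simp only [h.isLeast'_iff]
      obtain ⟨a, b, ha, hb, rfl⟩ := h.split w x x hw
      rcases hx2 a ha with rfl | rfl <;> rcases hx2 b hb with rfl | rfl
      · left; rw [add_zero]
      · right; left; rw [zero_add]
      · right; left; rw [add_zero]
      · right; right; rfl
    · intro r hr1 hr2
      refine ⟨r + x, ⟨h.le_left r x, h.mono _ _ _ _ hr1 le_rfl, fun u hu1 hu2 =>
        e.dark_join x hx2 hC r u hr2 hu1 hu2⟩, fun s hs1 hs2 => h.gap hx2 hr2 hs1 hs2⟩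
  · rintro rfl
    refine ⟨⟨fun hl => e.ne ((h.isLeast'_iff x).1 hl), fun w hw => ?_⟩, e.join_exists h,
      e.no_cover h⟩
    rw [h.isLeast'_iff]
    exact e.atom w hw

end Elts

end Pool.Agent.CeerI
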