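import Pool.Agent.CeerI.Defs

/-!
# Ceers modulo finite ceers (MP_58a0a5_lc): basic facts
-/

namespace Pool.Agent.CeerI

/-- All classes of the ceer are computable. -/
def AllComp (R : Ceer) : Prop := ∀ a, ComputablePred (R.r a)

namespace Ceer

variable {R S T R' S' : Ceer}

/-- The restriction of `R` to the range of `e`. -/
def pull (R : Ceer) (e : ℕ → ℕ) (he : Computable e) : Ceer where
  r x y := R.r (e x) (e y)
  eqv := ⟨fun _ => R.eqv.refl _, fun h => R.eqv.symm h, fun h h' => R.eqv.trans h h'⟩
  re := re_comp R.re ((he.comp Computable.fst).pair (he.comp Computable.snd))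

theorem red_pull (R : Ceer) (e : ℕ → ℕ) (he : Computable e) : Red (R.pull e he) R :=
  ⟨e, he, fun _ _ => Iff.rfl⟩

theorem sum_even (x y : ℕ) : (R.sum S).r (2 * x) (2 * y) ↔ R.r x y := by
  have h1 : ∀ n : ℕ, 2 * n % 2 = 0 := by omega
  have h2 : ∀ n : ℕ, 2 * n / 2 = n := by omega
  simp [sum, h1, h2]

theorem sum_odd (x y : ℕ) : (R.sum S).r (2 * x + 1) (2 * y + 1) ↔ S.r x y := by
  have h1 : ∀ n : ℕ, (2 * n + 1) % 2 = 1 := by omega
  have h2 : ∀ n : ℕ, (2 * n + 1) / 2 = n := by omega
  simp [sum, h1, h2]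

theorem sum_even_odd (x y : ℕ) : ¬ (R.sum S).r (2 * x) (2 * y + 1) := by
  simp only [sum]
  omega

theorem sum_odd_even (x y : ℕ) : ¬ (R.sum S).r (2 * x + 1) (2 * y) := by
  simp only [sum]
  omega

theorem idn_iff (n x y : ℕ) : (idn n).r x y ↔ x % n = y % n := Iff.rfl

end Ceer

open Ceer

variable {R S T R' S' : Ceer}

/-- Reductions from a sum. -/
theorem red_sum_of {f g : ℕ → ℕ} (hf : Computable f) (hg : Computable g)
    (h1 : ∀ x y, R.r x y ↔ T.r (f x) (f y)) (h2 : ∀ x y, S.r x y ↔ T.r (g x) (g y))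
    (h3 : ∀ x y, ¬ T.r (f x) (g y)) : Red (R.sum S) T := by
  refine ⟨fun x => if x % 2 = 0 then f (x / 2) else g (x / 2),
    comp_ite dec_even (hf.comp comp_div2) (hg.comp comp_div2), ?_⟩
  intro x y
  rcases Nat.even_or_odd' x with ⟨u, rfl | rfl⟩ <;> rcases Nat.even_or_odd' y with ⟨v, rfl | rfl⟩
  · have e1 : 2 * u % 2 = 0 := by omega
    have e2 : 2 * v % 2 = 0 := by omega
    have e3 : 2 * u / 2 = u := by omega
    have e4 : 2 * v / 2 = v := by omega
    simp only [sum_even, e1, e2, e3, e4, if_true, h1]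
  · have e1 : 2 * u % 2 = 0 := by omega
    have e2 : (2 * v + 1) % 2 ≠ 0 := by omega
    have e3 : 2 * u / 2 = u := by omega
    have e4 : (2 * v + 1) / 2 = v := by omega
    simp only [sum_even_odd, e1, e2, e3, e4, if_true, if_false, false_iff]
    exact h3 _ _
  · have e1 : (2 * u + 1) % 2 ≠ 0 := by omega
    have e2 : 2 * v % 2 = 0 := by omega
    have e3 : (2 * u + 1) / 2 = u := by omega
    have e4 : 2 * v / 2 = v := by omega
    simp only [sum_odd_even, e1, e2, e3, e4, if_true, if_false, false_iff]
    exact fun h => h3 _ _ (T.eqv.symm h)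
  · have e1 : (2 * u + 1) % 2 ≠ 0 := by omega
    have e2 : (2 * v + 1) % 2 ≠ 0 := by omega
    have e3 : (2 * u + 1) / 2 = u := by omega
    have e4 : (2 * v + 1) / 2 = v := by omega
    simp only [sum_odd, e1, e2, e3, e4, if_false, h2]

theorem red_sum_left (R S : Ceer) : Red R (R.sum S) :=
  ⟨fun x => 2 * x, comp_two_mul, fun x y => (sum_even x y).symm⟩

theorem red_sum_right (R S : Ceer) : Red S (R.sum S) :=
  ⟨fun x => 2 * x + 1, comp_two_mul_add, fun x y => (sum_odd x y).symm⟩

theorem red_sum (h : Red R R') (h' : Red S S') : Red (R.sum S) (R'.sum S') := by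
  obtain ⟨f, hf, hf'⟩ := h
  obtain ⟨g, hg, hg'⟩ := h'
  exact red_sum_of (comp_two_mul.comp hf) (comp_two_mul_add.comp hg)
    (fun x y => (hf' x y).trans (sum_even _ _).symm)
    (fun x y => (hg' x y).trans (sum_odd _ _).symm) fun x y => sum_even_odd _ _

theorem red_comm (R S : Ceer) : Red (R.sum S) (S.sum R) :=
  red_sum_of comp_two_mul_add comp_two_mul (fun x y => (sum_odd x y).symm)
    (fun x y => (sum_even x y).symm) fun x y => sum_odd_even _ _

theorem red_assoc (R S T : Ceer) : Red ((R.sum S).sum T) (R.sum (S.sum T)) := by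
  refine red_sum_of (f := fun x => if x % 2 = 0 then 2 * (x / 2) else 2 * (2 * (x / 2)) + 1)
    (g := fun x => 2 * (2 * x + 1) + 1)
    (comp_ite dec_even (comp_two_mul.comp comp_div2)
      (comp_two_mul_add.comp (comp_two_mul.comp comp_div2)))
    (comp_two_mul_add.comp comp_two_mul_add) ?_ ?_ ?_
  · intro x y
    rcases Nat.even_or_odd' x with ⟨u, rfl | rfl⟩ <;>
      rcases Nat.even_or_odd' y with ⟨v, rfl | rfl⟩
    · have e1 : 2 * u % 2 = 0 := by omega
      have e2 : 2 * v % 2 = 0 := by omega
      have e3 : 2 * u / 2 = u := by omega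
      have e4 : 2 * v / 2 = v := by omega
      simp only [sum_even, e1, e2, e3, e4, if_true]
    · have e1 : 2 * u % 2 = 0 := by omega
      have e2 : (2 * v + 1) % 2 ≠ 0 := by omega
      have e3 : 2 * u / 2 = u := by omega
      have e4 : (2 * v + 1) / 2 = v := by omega
      simp only [sum_even_odd, e1, e2, e3, e4, if_true, if_false]
    · have e1 : (2 * u + 1) % 2 ≠ 0 := by omega
      have e2 : 2 * v % 2 = 0 := by omega
      have e3 : (2 * u + 1) / 2 = u := by omega
      have e4 : 2 * v / 2 = v := by omega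
      simp only [sum_odd_even, e1, e2, e3, e4, if_true, if_false]
    · have e1 : (2 * u + 1) % 2 ≠ 0 := by omega
      have e2 : (2 * v + 1) % 2 ≠ 0 := by omega
      have e3 : (2 * u + 1) / 2 = u := by omega
      have e4 : (2 * v + 1) / 2 = v := by omega
      simp only [sum_odd, sum_even, e1, e2, e3, e4, if_false]
  · intro x y
    simp only [sum_odd]
  · intro x y
    rcases Nat.even_or_odd' x with ⟨u, rfl | rfl⟩
    · have e1 : 2 * u % 2 = 0 := by omega
      simp only [e1, if_true, sum_even_odd, not_false_iff]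
    · have e1 : (2 * u + 1) % 2 ≠ 0 := by omega
      simp only [e1, if_false, sum_odd, sum_even_odd, not_false_iff]

theorem red_assoc' (R S T : Ceer) : Red (R.sum (S.sum T)) ((R.sum S).sum T) :=
  (red_comm _ _).trans <| (red_sum (red_comm S T) (Red.refl R)).trans <|
    (red_assoc T S R).trans <| (red_comm _ _).trans (red_sum (red_comm S R) (Red.refl T))

/-- `R ⊕ Id_k` for larger `k`. -/
theorem red_plus_mono (R : Ceer) {k l : ℕ} (h : k ≤ l) : Red (R.plus k) (R.plus l) := by
  cases k with
  | zero =>
    cases l with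
    | zero => exact Red.refl _
    | succ l => exact red_sum_left R _
  | succ k =>
    cases l with
    | zero => omega
    | succ l =>
      refine red_sum (Red.refl R) ⟨fun x => x % (k + 1), comp_mod (k + 1), fun x y => ?_⟩
      simp only [idn_iff]
      have h1 : ∀ n : ℕ, (n % (k + 1)) % (l + 1) = n % (k + 1) := fun n =>
        Nat.mod_eq_of_lt ((Nat.mod_lt _ (by omega)).trans_le h)
      rw [h1, h1]

theorem red_plus (R : Ceer) (k : ℕ) : Red R (R.plus k) := red_plus_mono R (Nat.zero_le k)

theorem Red.le (h : Red R S) : R ≤ S := ⟨0, h⟩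

theorem plus_le (R : Ceer) (k : ℕ) : R.plus k ≤ R := ⟨k, Red.refl _⟩

/-- A reduction to `S ⊕ Id_{k+1}`. -/
theorem le_iff_succ : R ≤ S ↔ ∃ (k : ℕ) (f : ℕ → ℕ), Computable f ∧
    ∀ x y, R.r x y ↔ (S.sum (idn (k + 1))).r (f x) (f y) := by
  constructor
  · rintro ⟨k, h⟩
    obtain ⟨f, hf, h'⟩ := h.trans (red_plus_mono S (Nat.le_succ k))
    exact ⟨k, f, hf, h'⟩
  · rintro ⟨k, f, hf, h⟩
    exact ⟨k + 1, f, hf, h⟩

/-- Two ceers below `Z` reduce to the same `Z ⊕ Id_k`. -/
theorem common {A B Z : Ceer} (h : A ≤ Z) (h' : B ≤ Z) :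
    ∃ Z' : Ceer, Z' ≤ Z ∧ Red A Z' ∧ Red B Z' := by
  obtain ⟨k, hk⟩ := h
  obtain ⟨l, hl⟩ := h'
  exact ⟨Z.plus (max k l), plus_le _ _, hk.trans (red_plus_mono Z (le_max_left _ _)),
    hl.trans (red_plus_mono Z (le_max_right _ _))⟩

theorem le_sum_left (R S : Ceer) : R ≤ R.sum S := (red_sum_left R S).le

theorem le_sum_right (R S : Ceer) : S ≤ R.sum S := (red_sum_right R S).le

/-- A ceer with finitely many classes, listed by a computable function, is below everything. -/
theorem le_of_finite {n : ℕ} {f : ℕ → ℕ} (hf : Computable f) (hn : ∀ x, f x < n)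
    (h : ∀ x y, R.r x y ↔ f x = f y) (S : Ceer) : R ≤ S := by
  cases n with
  | zero => exact absurd (hn 0) (by omega)
  | succ n =>
    refine le_iff_succ.2 ⟨n, fun x => 2 * f x + 1, comp_two_mul_add.comp hf, fun x y => ?_⟩
    rw [sum_odd, idn_iff, Nat.mod_eq_of_lt (hn x), Nat.mod_eq_of_lt (hn y), h]

theorem idn_le (n : ℕ) (S : Ceer) : idn (n + 1) ≤ S :=
  le_of_finite (comp_mod (n + 1)) (fun x => Nat.mod_lt x (by omega)) (fun _ _ => Iff.rfl) S

theorem bot_le' (S : Ceer) : idn 1 ≤ S := idn_le 0 S

/-- `Id_a ⊕ Id_b` has finitely many classes. -/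
theorem idn_sum_le (a b : ℕ) (S : Ceer) : (idn (a + 1)).sum (idn (b + 1)) ≤ S := by
  refine le_of_finite (n := (a + 1) + (b + 1))
    (f := fun x => if x % 2 = 0 then (x / 2) % (a + 1) else (a + 1) + (x / 2) % (b + 1)) ?_ ?_ ?_ S
  · refine comp_ite dec_even ((comp_mod _).comp comp_div2) ?_
    exact (Primrec.nat_add.comp (Primrec.const (a + 1)) Primrec.id).to_comp.comp
      ((comp_mod _).comp comp_div2)
  · intro x
    have h1 := Nat.mod_lt (x / 2) (show 0 < a + 1 by omega)
    have h2 := Nat.mod_lt (x / 2) (show 0 < b + 1 by omega)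
    split_ifs <;> omega
  · intro x y
    rcases Nat.even_or_odd' x with ⟨u, rfl | rfl⟩ <;>
      rcases Nat.even_or_odd' y with ⟨v, rfl | rfl⟩
    · have e1 : 2 * u % 2 = 0 := by omega
      have e2 : 2 * v % 2 = 0 := by omega
      have e3 : 2 * u / 2 = u := by omega
      have e4 : 2 * v / 2 = v := by omega
      simp only [sum_even, e1, e2, e3, e4, if_true, idn_iff]
    · have e1 : 2 * u % 2 = 0 := by omega
      have e2 : (2 * v + 1) % 2 ≠ 0 := by omega
      have e3 : 2 * u / 2 = u := by omega
      have e4 : (2 * v + 1) / 2 = v := by omega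
      simp only [sum_even_odd, e1, e2, e3, e4, if_true, if_false, false_iff]
      have := Nat.mod_lt u (show 0 < a + 1 by omega)
      omega
    · have e1 : (2 * u + 1) % 2 ≠ 0 := by omega
      have e2 : 2 * v % 2 = 0 := by omega
      have e3 : (2 * u + 1) / 2 = u := by omega
      have e4 : 2 * v / 2 = v := by omega
      simp only [sum_odd_even, e1, e2, e3, e4, if_true, if_false, false_iff]
      have := Nat.mod_lt v (show 0 < a + 1 by omega)
      omega
    · have e1 : (2 * u + 1) % 2 ≠ 0 := by omega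
      have e2 : (2 * v + 1) % 2 ≠ 0 := by omega
      have e3 : (2 * u + 1) / 2 = u := by omega
      have e4 : (2 * v + 1) / 2 = v := by omega
      simp only [sum_odd, e1, e2, e3, e4, if_false, idn_iff, Nat.add_left_cancel_iff]

/-- Monotonicity of sums. -/
theorem sum_mono (h : R ≤ R') (h' : S ≤ S') : R.sum S ≤ R'.sum S' := by
  obtain ⟨k, hk⟩ := le_iff_succ.1 h
  obtain ⟨l, hl⟩ := le_iff_succ.1 h'
  have h1 : Red (R.sum S) ((R'.sum (idn (k + 1))).sum (S'.sum (idn (l + 1)))) :=
    red_sum hk hl
  have h2 : Red ((R'.sum (idn (k + 1))).sum (S'.sum (idn (l + 1))))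
      ((R'.sum S').sum ((idn (k + 1)).sum (idn (l + 1)))) := by
    refine (red_assoc _ _ _).trans ((red_sum (Red.refl R') ?_).trans (red_assoc' _ _ _))
    exact (red_assoc' _ _ _).trans ((red_sum (red_comm _ _) (Red.refl _)).trans
      (red_assoc _ _ _))
  obtain ⟨m, f, hf, hm⟩ := le_iff_succ.1 (idn_sum_le k l (idn 1))
  -- the finite part reduces to some `Id_m`
  have h3 : Red ((idn (k + 1)).sum (idn (l + 1))) (idn ((k + 1) + (l + 1))) := by
    refine ⟨fun x => if x % 2 = 0 then (x / 2) % (k + 1) else (k + 1) + (x / 2) % (l + 1), ?_, ?_⟩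
    · refine comp_ite dec_even ((comp_mod _).comp comp_div2) ?_
      exact (Primrec.nat_add.comp (Primrec.const (k + 1)) Primrec.id).to_comp.comp
        ((comp_mod _).comp comp_div2)
    · intro x y
      have a1 : ∀ u, (u % (k + 1)) % ((k + 1) + (l + 1)) = u % (k + 1) := fun u =>
        Nat.mod_eq_of_lt ((Nat.mod_lt u (by omega)).trans_le (by omega))
      have a2 : ∀ u, ((k + 1) + u % (l + 1)) % ((k + 1) + (l + 1)) = (k + 1) + u % (l + 1) :=
        fun u => Nat.mod_eq_of_lt (by have := Nat.mod_lt u (show 0 < l + 1 by omega); omega)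
      rcases Nat.even_or_odd' x with ⟨u, rfl | rfl⟩ <;>
        rcases Nat.even_or_odd' y with ⟨v, rfl | rfl⟩
      · have e1 : 2 * u % 2 = 0 := by omega
        have e2 : 2 * v % 2 = 0 := by omega
        have e3 : 2 * u / 2 = u := by omega
        have e4 : 2 * v / 2 = v := by omega
        simp only [sum_even, e1, e2, e3, e4, if_true, idn_iff, a1]
      · have e1 : 2 * u % 2 = 0 := by omega
        have e2 : (2 * v + 1) % 2 ≠ 0 := by omega
        have e3 : 2 * u / 2 = u := by omega
        have e4 : (2 * v + 1) / 2 = v := by omega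
        simp only [sum_even_odd, e1, e2, e3, e4, if_true, if_false, false_iff, idn_iff, a1, a2]
        have := Nat.mod_lt u (show 0 < k + 1 by omega)
        omega
      · have e1 : (2 * u + 1) % 2 ≠ 0 := by omega
        have e2 : 2 * v % 2 = 0 := by omega
        have e3 : (2 * u + 1) / 2 = u := by omega
        have e4 : 2 * v / 2 = v := by omega
        simp only [sum_odd_even, e1, e2, e3, e4, if_true, if_false, false_iff, idn_iff, a1, a2]
        have := Nat.mod_lt v (show 0 < k + 1 by omega)
        omega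
      · have e1 : (2 * u + 1) % 2 ≠ 0 := by omega
        have e2 : (2 * v + 1) % 2 ≠ 0 := by omega
        have e3 : (2 * u + 1) / 2 = u := by omega
        have e4 : (2 * v + 1) / 2 = v := by omega
        simp only [sum_odd, e1, e2, e3, e4, if_false, idn_iff, a2, Nat.add_left_cancel_iff]
  exact ⟨(k + 1) + (l + 1), h1.trans (h2.trans (red_sum (Red.refl _) h3))⟩

theorem sum_bot_le (R : Ceer) : R.sum (idn 1) ≤ R := ⟨1, Red.refl _⟩

/-- A ceer is above `Id` modulo finite ceers iff `Id` reduces to it. -/
theorem ident_le_iff : ident ≤ R ↔ Red ident R := by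
  refine ⟨fun h => ?_, Red.le⟩
  obtain ⟨k, f, hf, h⟩ := le_iff_succ.1 h
  -- at most `k + 1` numbers go to the finite part
  have hfin : ∃ N, ∀ n, N ≤ n → f n % 2 = 0 := by
    by_contra hcon
    push_neg at hcon
    have hinf : {n | f n % 2 = 1}.Infinite := by
      rw [Set.infinite_iff_exists_gt]
      intro a
      obtain ⟨n, hn, hn'⟩ := hcon (a + 1)
      exact ⟨n, by simp only [Set.mem_setOf_eq]; omega, by omega⟩
    obtain ⟨x, hx, y, hy, hxy, he⟩ := hinf.exists_ne_map_eq_of_mapsTo
      (f := fun n => (f n / 2) % (k + 1)) (t := Set.Iio (k + 1))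
      (fun n _ => Nat.mod_lt _ (by omega)) (Set.finite_Iio _)
    have h2 := (h x y).2 (by
      simp only [Set.mem_setOf_eq] at hx hy
      exact Or.inr ⟨hx, hy, he⟩)
    exact hxy h2
  obtain ⟨N, hN⟩ := hfin
  refine ⟨fun n => f (n + N) / 2, comp_div2.comp (hf.comp
    (Primrec.nat_add.comp Primrec.id (Primrec.const N)).to_comp), fun x y => ?_⟩
  have h1 := h (x + N) (y + N)
  have h2 : ident.r x y ↔ ident.r (x + N) (y + N) := by
    simp [ident]
  rw [h2, h1]
  have e1 := hN (x + N) (by omega)
  have e2 := hN (y + N) (by omega)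
  simp [Ceer.sum, e1, e2]

/-- An infinite recursively enumerable set contains a computable increasing sequence. -/
theorem strictMono_enum {A : ℕ → Prop} (hA : REPred A) (h : ∀ N, ∃ a, N ≤ a ∧ A a) :
    ∃ s : ℕ → ℕ, Computable s ∧ StrictMono s ∧ ∀ n, A (s n) := by
  have h1 : REPred fun p : ℕ × ℕ => p.1 ≤ p.2 ∧ A p.2 := by
    refine re_and ?_ (re_comp hA Computable.snd)
    have : PrimrecPred fun p : ℕ × ℕ => p.1 ≤ p.2 :=
      Primrec.nat_le.comp Primrec.fst Primrec.snd
    exact this.computablePred.to_re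
  obtain ⟨g, hg, hg'⟩ := search h1 h
  let s : ℕ → ℕ := fun n => Nat.rec (g 0) (fun _ a => g (a + 1)) n
  have hs : Computable s := by
    have := Computable.nat_rec (f := fun n : ℕ => n) (g := fun _ : ℕ => g 0)
      (h := fun (_ : ℕ) (p : ℕ × ℕ) => g (p.2 + 1)) Computable.id (Computable.const _)
      ((hg.comp (Computable.succ.comp (Computable.snd.comp Computable.snd))).to₂)
    exact this
  refine ⟨s, hs, strictMono_nat_of_lt_succ fun n => ?_, fun n => ?_⟩
  · have := (hg' (s n + 1)).1
    change s n < g (s n + 1)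
    simp only at this
    omega
  · cases n with
    | zero => exact (hg' 0).2
    | succ n => exact (hg' (s n + 1)).2

/-- Computability of all classes passes to smaller ceers. -/
theorem AllComp.of_le (h : R ≤ S) (hS : AllComp S) : AllComp R := by
  obtain ⟨k, f, hf, h⟩ := le_iff_succ.1 h
  intro a
  have h1 : ComputablePred ((S.sum (idn (k + 1))).r (f a)) := by
    rcases Nat.mod_two_eq_zero_or_one (f a) with ha | ha
    · have : ∀ y, (S.sum (idn (k + 1))).r (f a) y ↔ (y % 2 = 0 ∧ S.r (f a / 2) (y / 2)) := by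
        intro y
        simp [Ceer.sum, ha]
      refine ComputablePred.of_eq (dec_and dec_even (dec_comp (hS (f a / 2)) comp_div2))
        fun y => (this y).symm
    · have : ∀ y, (S.sum (idn (k + 1))).r (f a) y ↔
          (y % 2 = 1 ∧ (f a / 2) % (k + 1) = (y / 2) % (k + 1)) := by
        intro y
        simp [Ceer.sum, idn, ha]
      refine ComputablePred.of_eq (dec_and (dec_eq comp_mod2 (Computable.const 1))
        (dec_eq (Computable.const _) ((comp_mod (k + 1)).comp comp_div2)))
        fun y => (this y).symm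
  exact ComputablePred.of_eq (dec_comp h1 hf) fun y => (h a y).symm

/-- A ceer without `N` pairwise inequivalent numbers is finite. -/
theorem exists_inequiv (h : ¬ R ≤ idn 1) (N : ℕ) :
    ∃ a : Fin N → ℕ, ∀ i j, i ≠ j → ¬ R.r (a i) (a j) := by
  induction N with
  | zero => exact ⟨fun i => i.elim0, fun i => i.elim0⟩
  | succ N ih =>
    obtain ⟨a, ha⟩ := ih
    by_contra hcon
    apply h
    -- every number is equivalent to some `a i`
    have hall : ∀ x, ∃ i, i < N ∧ ∃ h : i < N, R.r x (a ⟨i, h⟩) := by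
      intro x
      by_contra hx
      push_neg at hx
      apply hcon
      refine ⟨Fin.cons x a, ?_⟩
      intro i j
      refine Fin.cases ?_ (fun i => ?_) i <;> refine Fin.cases ?_ (fun j => ?_) j
      · intro h; exact absurd rfl h
      · intro _
        simp only [Fin.cons_zero, Fin.cons_succ]
        exact hx j.1 j.2 j.2
      · intro _
        simp only [Fin.cons_zero, Fin.cons_succ]
        exact fun h => hx i.1 i.2 i.2 (R.eqv.symm h)
      · intro h
        simp only [Fin.cons_succ]
        exact ha i j fun e => h (by rw [e])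
    let b : ℕ → ℕ := fun i => if h : i < N then a ⟨i, h⟩ else 0
    have hb : Computable b := by
      have : ∀ (N : ℕ) (b : ℕ → ℕ), (∀ i, N ≤ i → b i = 0) → Computable b := by
        intro N
        induction N with
        | zero =>
          intro b hb
          exact (Computable.const 0).of_eq fun i => (hb i (Nat.zero_le i)).symm
        | succ N ihN =>
          intro b hb
          have h1 := ihN (fun i => if i = N then 0 else b i) (by
            intro i hi
            by_cases e : i = N
            · simp [e]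
            · simp only [e, if_false]; exact hb i (by omega))
          have h2 : Computable fun i : ℕ => if i = N then b N else
              (if i = N then 0 else b i) :=
            comp_ite (dec_eq Computable.id (Computable.const N)) (Computable.const _) h1
          exact h2.of_eq fun i => by
            by_cases e : i = N
            · simp [e]
            · simp [e]
      exact this N b fun i hi => by simp [b, Nat.not_lt.2 hi]
    have hP : REPred fun p : ℕ × ℕ => p.2 < N ∧ R.r p.1 (b p.2) := by
      refine re_and ?_ (re_comp R.re (Computable.fst.pair (hb.comp Computable.snd)))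
      have : PrimrecPred fun p : ℕ × ℕ => p.2 < N :=
        Primrec.nat_lt.comp Primrec.snd (Primrec.const N)
      exact this.computablePred.to_re
    obtain ⟨f, hf, hf'⟩ := search hP (fun x => by
      obtain ⟨i, hi, hi', hr⟩ := hall x
      exact ⟨i, hi, by simpa [b, hi] using hr⟩)
    refine le_of_finite hf (n := N) (fun x => (hf' x).1) ?_ _
    intro x y
    have hx := (hf' x).2
    have hy := (hf' y).2
    simp only at hx hy
    constructor
    · intro hxy
      by_contra hne
      have hx1 := (hf' x).1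
      have hy1 := (hf' y).1
      simp only at hx1 hy1
      have : R.r (b (f x)) (b (f y)) := R.eqv.trans (R.eqv.symm hx) (R.eqv.trans hxy hy)
      simp only [b, hx1, hy1, dif_pos] at this
      exact ha ⟨f x, hx1⟩ ⟨f y, hy1⟩ (fun e => hne (Fin.mk.inj_iff.1 e)) this
    · intro hxy
      rw [← hxy] at hy
      exact R.eqv.trans hx (R.eqv.symm hy)

end Pool.Agent.CeerI
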