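import Mathlib

/-!
# Recursively enumerable predicates: closure properties and search (for MP_58a0a5_lc)
-/

namespace Pool.Agent.CeerI

section

variable {α β : Type} [Primcodable α] [Primcodable β]

/-- Every recursively enumerable predicate is the projection of a computable one, and conversely. -/
theorem re_iff {p : α → Prop} :
    REPred p ↔ ∃ D : α × ℕ → Bool, Computable D ∧ ∀ a, p a ↔ ∃ n, D (a, n) = true := by
  constructor
  · intro hp
    obtain ⟨c, hc⟩ := Nat.Partrec.Code.exists_code.1 hp
    refine ⟨fun q => (Nat.Partrec.Code.evaln q.2 c (Encodable.encode q.1)).isSome, ?_, ?_⟩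
    · have h1 : Computable fun q : α × ℕ =>
          Nat.Partrec.Code.evaln q.2 c (Encodable.encode q.1) :=
        Nat.Partrec.Code.primrec_evaln.to_comp.comp
          ((Computable.snd.pair (Computable.const c)).pair
            (Computable.encode.comp Computable.fst))
      exact Primrec.option_isSome.to_comp.comp h1
    · intro a
      have h2 : p a ↔ (Nat.Partrec.Code.eval c (Encodable.encode a)).Dom := by
        rw [hc]
        simp [Part.dom_iff_mem, Part.assert]
      rw [h2, Part.dom_iff_mem]
      constructor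
      · rintro ⟨y, hy⟩
        obtain ⟨k, hk⟩ := Nat.Partrec.Code.evaln_complete.1 hy
        exact ⟨k, Option.isSome_iff_exists.2 ⟨y, hk⟩⟩
      · rintro ⟨k, hk⟩
        obtain ⟨y, hy⟩ := Option.isSome_iff_exists.1 hk
        exact ⟨y, Nat.Partrec.Code.evaln_sound hy⟩
  · rintro ⟨D, hD, h⟩
    have h1 : Partrec fun a => Nat.rfind fun n => (Part.some (D (a, n)) : Part Bool) :=
      Partrec.rfind hD.partrec.to₂
    refine h1.dom_re.of_eq fun a => ?_
    rw [h, Nat.rfind_dom]
    simp

theorem re_comp {p : β → Prop} (hp : REPred p) {f : α → β} (hf : Computable f) :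
    REPred fun a => p (f a) := by
  obtain ⟨D, hD, h⟩ := re_iff.1 hp
  refine re_iff.2 ⟨fun q => D (f q.1, q.2), hD.comp ((hf.comp Computable.fst).pair
    Computable.snd), fun a => h (f a)⟩

theorem re_bool {f : α → Bool} (hf : Computable f) : REPred fun a => f a = true :=
  re_iff.2 ⟨fun q => f q.1, hf.comp Computable.fst, fun a => by simp⟩

theorem re_and {p q : α → Prop} (hp : REPred p) (hq : REPred q) :
    REPred fun a => p a ∧ q a := by
  obtain ⟨D, hD, h⟩ := re_iff.1 hp
  obtain ⟨E, hE, h'⟩ := re_iff.1 hq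
  refine re_iff.2 ⟨fun r => D (r.1, (Nat.unpair r.2).1) && E (r.1, (Nat.unpair r.2).2), ?_, ?_⟩
  · exact Primrec.and.to_comp.comp
      (hD.comp (Computable.fst.pair (Computable.fst.comp
        (Computable.unpair.comp Computable.snd))))
      (hE.comp (Computable.fst.pair (Computable.snd.comp
        (Computable.unpair.comp Computable.snd))))
  · intro a
    rw [h, h']
    constructor
    · rintro ⟨⟨n, hn⟩, ⟨m, hm⟩⟩
      exact ⟨Nat.pair n m, by simp [hn, hm]⟩
    · rintro ⟨n, hn⟩
      simp only [Bool.and_eq_true] at hn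
      exact ⟨⟨_, hn.1⟩, ⟨_, hn.2⟩⟩

theorem re_or {p q : α → Prop} (hp : REPred p) (hq : REPred q) :
    REPred fun a => p a ∨ q a := by
  obtain ⟨D, hD, h⟩ := re_iff.1 hp
  obtain ⟨E, hE, h'⟩ := re_iff.1 hq
  refine re_iff.2 ⟨fun r => D r || E r, Primrec.or.to_comp.comp hD hE, ?_⟩
  intro a
  rw [h, h']
  constructor
  · rintro (⟨n, hn⟩ | ⟨n, hn⟩)
    · exact ⟨n, by simp [hn]⟩
    · exact ⟨n, by simp [hn]⟩
  · rintro ⟨n, hn⟩
    simp only [Bool.or_eq_true] at hn
    exact hn.imp (fun h => ⟨n, h⟩) fun h => ⟨n, h⟩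

theorem re_ex {p : α × ℕ → Prop} (hp : REPred p) : REPred fun a => ∃ n, p (a, n) := by
  obtain ⟨D, hD, h⟩ := re_iff.1 hp
  refine re_iff.2 ⟨fun r => D ((r.1, (Nat.unpair r.2).1), (Nat.unpair r.2).2), ?_, ?_⟩
  · exact hD.comp ((Computable.fst.pair (Computable.fst.comp
      (Computable.unpair.comp Computable.snd))).pair (Computable.snd.comp
        (Computable.unpair.comp Computable.snd)))
  · intro a
    constructor
    · rintro ⟨n, hn⟩
      obtain ⟨m, hm⟩ := (h _).1 hn
      exact ⟨Nat.pair n m, by simpa using hm⟩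
    · rintro ⟨n, hn⟩
      exact ⟨_, (h _).2 ⟨_, hn⟩⟩

/-- Search. -/
theorem search {P : α × ℕ → Prop} (hP : REPred P) (h : ∀ a, ∃ n, P (a, n)) :
    ∃ f : α → ℕ, Computable f ∧ ∀ a, P (a, f a) := by
  obtain ⟨D, hD, h'⟩ := re_iff.1 hP
  have hex : ∀ a, ∃ k, D ((a, (Nat.unpair k).1), (Nat.unpair k).2) = true := by
    intro a
    obtain ⟨n, hn⟩ := h a
    obtain ⟨m, hm⟩ := (h' _).1 hn
    exact ⟨Nat.pair n m, by simpa using hm⟩
  have hc : Computable fun a => Nat.find (hex a) := by
    refine Computable.find (P := fun a k => D ((a, (Nat.unpair k).1), (Nat.unpair k).2) = true)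
      ?_ hex
    refine Computable.computablePred ?_
    have : Computable fun q : α × ℕ => D ((q.1, (Nat.unpair q.2).1), (Nat.unpair q.2).2) :=
      hD.comp ((Computable.fst.pair (Computable.fst.comp
        (Computable.unpair.comp Computable.snd))).pair (Computable.snd.comp
          (Computable.unpair.comp Computable.snd)))
    exact this.of_eq fun q => by simp
  refine ⟨fun a => (Nat.unpair (Nat.find (hex a))).1, Computable.fst.comp
    (Computable.unpair.comp hc), fun a => ?_⟩
  exact (h' _).2 ⟨_, Nat.find_spec (hex a)⟩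

/-- Enumeration of a nonempty set. -/
theorem enum {A : ℕ → Prop} (hA : REPred A) (hne : ∃ a, A a) :
    ∃ e : ℕ → ℕ, Computable e ∧ (∀ n, A (e n)) ∧ ∀ a, A a → ∃ n, e n = a := by
  obtain ⟨D, hD, h⟩ := re_iff.1 hA
  obtain ⟨a₀, ha₀⟩ := hne
  have hD' : Computable fun n : ℕ => D (Nat.unpair n) := hD.comp Computable.unpair
  refine ⟨fun n => bif D (Nat.unpair n) then (Nat.unpair n).1 else a₀,
    Computable.cond hD' (Computable.fst.comp Computable.unpair) (Computable.const a₀), ?_, ?_⟩
  · intro n
    by_cases hn : D (Nat.unpair n) = true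
    · change A (bif D (Nat.unpair n) then (Nat.unpair n).1 else a₀)
      rw [hn]
      exact (h _).2 ⟨(Nat.unpair n).2, hn⟩
    · rw [Bool.not_eq_true] at hn
      change A (bif D (Nat.unpair n) then (Nat.unpair n).1 else a₀)
      rw [hn]
      exact ha₀
  · intro a ha
    obtain ⟨n, hn⟩ := (h a).1 ha
    exact ⟨Nat.pair a n, by simp [hn]⟩

/-- Decidable sets: Boolean form. -/
theorem dec_iff {p : α → Prop} :
    ComputablePred p ↔ ∃ f : α → Bool, Computable f ∧ ∀ a, p a ↔ f a = true := by
  rw [ComputablePred.computable_iff]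
  constructor
  · rintro ⟨f, hf, rfl⟩
    exact ⟨f, hf, fun _ => Iff.rfl⟩
  · rintro ⟨f, hf, h⟩
    exact ⟨f, hf, funext fun a => propext (h a)⟩

/-- Post's theorem. -/
theorem dec_of_re {p q : α → Prop} (hp : REPred p) (hq : REPred q) (h : ∀ a, q a ↔ ¬ p a) :
    ComputablePred p :=
  ComputablePred.computable_iff_re_compl_re'.2 ⟨hp, hq.of_eq h⟩

theorem dec_comp {p : β → Prop} (hp : ComputablePred p) {f : α → β} (hf : Computable f) :
    ComputablePred fun a => p (f a) := by
  obtain ⟨g, hg, h⟩ := dec_iff.1 hp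
  exact dec_iff.2 ⟨fun a => g (f a), hg.comp hf, fun a => h (f a)⟩

theorem dec_and {p q : α → Prop} (hp : ComputablePred p) (hq : ComputablePred q) :
    ComputablePred fun a => p a ∧ q a := by
  obtain ⟨f, hf, h⟩ := dec_iff.1 hp
  obtain ⟨g, hg, h'⟩ := dec_iff.1 hq
  exact dec_iff.2 ⟨fun a => f a && g a, Primrec.and.to_comp.comp hf hg, fun a => by
    simp [h, h']⟩

theorem dec_or {p q : α → Prop} (hp : ComputablePred p) (hq : ComputablePred q) :
    ComputablePred fun a => p a ∨ q a := by
  obtain ⟨f, hf, h⟩ := dec_iff.1 hp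
  obtain ⟨g, hg, h'⟩ := dec_iff.1 hq
  exact dec_iff.2 ⟨fun a => f a || g a, Primrec.or.to_comp.comp hf hg, fun a => by
    simp [h, h']⟩

/-- Definition by cases. -/
theorem comp_ite {p : α → Prop} [DecidablePred p] (hp : ComputablePred p) {f g : α → β}
    (hf : Computable f) (hg : Computable g) : Computable fun a => if p a then f a else g a := by
  have := Computable.cond hp.decide hf hg
  exact this.of_eq fun a => by by_cases h : p a <;> simp [h]

end

/-! ### Arithmetic functions -/

theorem comp_mod2 : Computable fun n : ℕ => n % 2 :=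
  (Primrec.nat_mod.comp Primrec.id (Primrec.const 2)).to_comp

theorem comp_div2 : Computable fun n : ℕ => n / 2 :=
  (Primrec.nat_div.comp Primrec.id (Primrec.const 2)).to_comp

theorem comp_two_mul : Computable fun n : ℕ => 2 * n :=
  (Primrec.nat_mul.comp (Primrec.const 2) Primrec.id).to_comp

theorem comp_two_mul_add : Computable fun n : ℕ => 2 * n + 1 :=
  Computable.succ.comp comp_two_mul

theorem comp_mod (k : ℕ) : Computable fun n : ℕ => n % k :=
  (Primrec.nat_mod.comp Primrec.id (Primrec.const k)).to_comp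

theorem dec_even : ComputablePred fun n : ℕ => n % 2 = 0 := by
  have : PrimrecPred fun n : ℕ => n % 2 = 0 :=
    Primrec.eq.comp (Primrec.nat_mod.comp Primrec.id (Primrec.const 2)) (Primrec.const 0)
  exact this.computablePred

theorem dec_eq {α : Type} [Primcodable α] {f g : α → ℕ} (hf : Computable f)
    (hg : Computable g) : ComputablePred fun a => f a = g a := by
  have h := (Primrec.eq (α := ℕ)).decide.to_comp.comp hf hg
  exact Computable.computablePred (h.of_eq fun a => by simp)

end Pool.Agent.CeerI
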