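import Pool.Agent.CeerI.Targets

/-!
# MP_58a0a5_lc: infinite dark ceers are not idempotent (job CEER-D1)
-/

namespace Pool.Agent.CeerI

open Ceer

theorem tD1 (hORBIT : T_ORBIT) : T_D1 := by
  intro X hX hfin hXX
  obtain ⟨k, h, hh, hr⟩ := le_iff_succ.1 hXX
  have hX' : ¬ Red ident X := fun H => hX (ident_le_iff.2 H)
  have h1 : ∀ x y, X.r x y ↔ (X.sum (idn (k + 1))).r (h (2 * x)) (h (2 * y)) := fun x y =>
    (sum_even x y).symm.trans (hr _ _)
  obtain ⟨-, hO⟩ := hORBIT X hX' k (fun n => h (2 * n)) (hh.comp comp_two_mul) h1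
  obtain ⟨b, hb⟩ := exists_inequiv hfin (2 * k + 3)
  -- the indices whose image is in the left part
  let S : Finset (Fin (2 * k + 3)) := Finset.univ.filter fun i => h (2 * b i + 1) % 2 = 0
  let T : Finset (Fin (2 * k + 3)) := Finset.univ.filter fun i => ¬ h (2 * b i + 1) % 2 = 0
  have hST : S.card + T.card = 2 * k + 3 := by
    have := Finset.card_filter_add_card_filter_not (s := (Finset.univ : Finset (Fin (2 * k + 3))))
      (fun i => h (2 * b i + 1) % 2 = 0)
    rw [Finset.card_univ, Fintype.card_fin] at this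
    exact this
  have hT : T.card ≤ k + 1 := by
    have := Finset.card_le_card_of_injOn (s := T) (t := Finset.range (k + 1))
      (fun i => (h (2 * b i + 1) / 2) % (k + 1))
      (fun i _ => Finset.mem_coe.2 (Finset.mem_range.2 (Nat.mod_lt _ (by omega)))) (by
        intro i hi j hj hij
        by_contra hne
        apply hb i j hne
        have hi' : h (2 * b i + 1) % 2 = 1 := by
          have := (Finset.mem_filter.1 (Finset.mem_coe.1 hi)).2
          omega
        have hj' : h (2 * b j + 1) % 2 = 1 := by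
          have := (Finset.mem_filter.1 (Finset.mem_coe.1 hj)).2
          omega
        exact (sum_odd (R := X) (b i) (b j)).1 ((hr _ _).2 (Or.inr ⟨hi', hj', hij⟩)))
    rwa [Finset.card_range] at this
  have hS : k + 2 ≤ S.card := by omega
  let e : Fin (k + 2) → Fin (2 * k + 3) := fun i => S.orderEmbOfFin rfl (Fin.castLE hS i)
  have heS : ∀ i, h (2 * b (e i) + 1) % 2 = 0 := fun i =>
    (Finset.mem_filter.1 (Finset.orderEmbOfFin_mem S rfl (Fin.castLE hS i))).2
  have hei : ∀ i j, e i = e j → i = j := fun i j hij =>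
    Fin.castLE_injective hS ((S.orderEmbOfFin rfl).injective hij)
  obtain ⟨i, j, hij, hij'⟩ := hO (fun i => h (2 * b (e i) + 1) / 2) (by
    intro i n hn hcon
    have : (X.sum X).r (2 * n) (2 * b (e i) + 1) := (hr _ _).2 (Or.inl ⟨hn, heS i, hcon⟩)
    exact sum_even_odd _ _ this)
  have : (X.sum X).r (2 * b (e i) + 1) (2 * b (e j) + 1) :=
    (hr _ _).2 (Or.inl ⟨heS i, heS j, hij'⟩)
  exact hb (e i) (e j) (fun he => hij (hei i j he)) ((sum_odd _ _).1 this)

end Pool.Agent.CeerI
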