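import Pool.Agent.CeerI.Targets

/-!
# MP_58a0a5_lc: atoms with computable classes (job CEER-DARK2)
-/

namespace Pool.Agent.CeerI

open Ceer

namespace DARK2

/-- A finite ceer has finitely many classes. -/
theorem finite_classes {W : Ceer} (h : W ≤ idn 1) :
    ∃ (q : ℕ) (a : ℕ → ℕ), ∀ x, ∃ j, j < q ∧ W.r x (a j) := by
  obtain ⟨k, f, -, h⟩ := le_iff_succ.1 h
  let c : ℕ → ℕ := fun x => if f x % 2 = 0 then 0 else (f x / 2) % (k + 1) + 1
  have hc : ∀ x, c x < k + 2 := by
    intro x
    have := Nat.mod_lt (f x / 2) (show 0 < k + 1 by omega)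
    simp only [c]
    split_ifs <;> omega
  have hc' : ∀ x y, c x = c y → W.r x y := by
    intro x y hxy
    rw [h]
    simp only [c] at hxy
    rcases Nat.mod_two_eq_zero_or_one (f x) with hx | hx <;>
      rcases Nat.mod_two_eq_zero_or_one (f y) with hy | hy
    · exact Or.inl ⟨hx, hy, by rw [idn_iff, Nat.mod_one, Nat.mod_one]⟩
    · exfalso
      simp only [hx, hy, if_true, if_false, one_ne_zero] at hxy
      omega
    · exfalso
      simp only [hx, hy, if_true, if_false, one_ne_zero] at hxy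
      omega
    · refine Or.inr ⟨hx, hy, ?_⟩
      simp only [hx, hy, if_false, one_ne_zero] at hxy
      rw [idn_iff]
      omega
  classical
  refine ⟨k + 2, fun j => if h : ∃ x, c x = j then h.choose else 0, fun x => ⟨c x, hc x, ?_⟩⟩
  have hex : ∃ y, c y = c x := ⟨x, rfl⟩
  apply hc'
  beta_reduce
  rw [dif_pos hex]
  exact hex.choose_spec.symm

/-- The number of the class of `n` in a finite list of classes. -/
theorem col {X : Ceer} (hX : AllComp X) (b : ℕ → ℕ) (q : ℕ) :
    ∃ c : ℕ → ℕ, Computable c ∧ (∀ n, c n ≤ q) ∧ (∀ n, c n < q → X.r n (b (c n))) ∧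
      (∀ n, c n = q → ∀ j, j < q → ¬ X.r n (b j)) ∧ ∀ x y, X.r x y → c x = c y := by
  induction q with
  | zero =>
    exact ⟨fun _ => 0, Computable.const 0, fun n => le_rfl, fun n hn => absurd hn (by omega),
      fun n _ j hj => absurd hj (by omega), fun _ _ _ => rfl⟩
  | succ q ih =>
    obtain ⟨c, hc, h1, h2, h3, h4⟩ := ih
    classical
    refine ⟨fun n => if X.r (b q) n then q else if c n = q then q + 1 else c n, ?_, ?_, ?_, ?_, ?_⟩
    · exact comp_ite (hX (b q)) (Computable.const q)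
        (comp_ite (dec_eq hc (Computable.const q)) (Computable.const _) hc)
    · intro n
      have := h1 n
      beta_reduce
      split_ifs <;> omega
    · intro n hn
      beta_reduce at hn ⊢
      have := h1 n
      by_cases e1 : X.r (b q) n
      · rw [if_pos e1]
        exact X.eqv.symm e1
      · rw [if_neg e1] at hn ⊢
        by_cases e2 : c n = q
        · rw [if_pos e2] at hn
          omega
        · rw [if_neg e2]
          exact h2 n (by omega)
    · intro n hn j hj
      beta_reduce at hn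
      have := h1 n
      by_cases e1 : X.r (b q) n
      · rw [if_pos e1] at hn
        omega
      · rw [if_neg e1] at hn
        by_cases e2 : c n = q
        · by_cases e3 : j = q
          · rw [e3]
            exact fun h => e1 (X.eqv.symm h)
          · exact h3 n e2 j (by omega)
        · rw [if_neg e2] at hn
          omega
    · intro x y hxy
      beta_reduce
      have e : X.r (b q) x ↔ X.r (b q) y :=
        ⟨fun h => X.eqv.trans h hxy, fun h => X.eqv.trans h (X.eqv.symm hxy)⟩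
      rw [h4 x y hxy]
      by_cases e1 : X.r (b q) y
      · rw [if_pos e1, if_pos (e.2 e1)]
      · rw [if_neg e1, if_neg fun h => e1 (e.1 h)]

/-- If the images of `R` and `X` meet in finitely many classes then `R ⊕ X ≤ Z`. -/
theorem key {X R Z : Ceer} (hX : AllComp X) {g f : ℕ → ℕ} (hg : Computable g)
    (hg' : ∀ x y, R.r x y ↔ Z.r (g x) (g y)) (hf : Computable f)
    (hf' : ∀ x y, X.r x y ↔ Z.r (f x) (f y)) (q : ℕ) (b : ℕ → ℕ)
    (hb : ∀ n m, Z.r (f n) (g m) → ∃ j, j < q ∧ X.r n (b j)) : R.sum X ≤ Z := by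
  obtain ⟨c, hc, h1, h2, h3, h4⟩ := col hX b q
  refine ⟨q + 1, red_sum_of (T := Z.sum (idn (q + 1))) (f := fun n => 2 * g n)
    (g := fun n => if c n = q then 2 * f n else 2 * c n + 1) (comp_two_mul.comp hg)
    (comp_ite (dec_eq hc (Computable.const q)) (comp_two_mul.comp hf)
      (comp_two_mul_add.comp hc)) ?_ ?_ ?_⟩
  · intro x y
    rw [sum_even, hg']
  · intro x y
    have hx := h1 x
    have hy := h1 y
    by_cases e1 : c x = q <;> by_cases e2 : c y = q
    · rw [if_pos e1, if_pos e2, sum_even, hf']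
    · rw [if_pos e1, if_neg e2]
      refine ⟨fun h => absurd (h4 x y h) (by omega), fun h => absurd h (sum_even_odd _ _)⟩
    · rw [if_neg e1, if_pos e2]
      refine ⟨fun h => absurd (h4 x y h) (by omega), fun h => absurd h (sum_odd_even _ _)⟩
    · rw [if_neg e1, if_neg e2, sum_odd, idn_iff, Nat.mod_eq_of_lt (by omega),
        Nat.mod_eq_of_lt (by omega)]
      refine ⟨h4 x y, fun h => ?_⟩
      have hx' := h2 x (by omega)
      have hy' := h2 y (by omega)
      rw [← h] at hy'
      exact X.eqv.trans hx' (X.eqv.symm hy')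
  · intro x y
    by_cases e : c y = q
    · rw [if_pos e, sum_even]
      intro h
      obtain ⟨j, hj, hj'⟩ := hb y x (Z.eqv.symm h)
      exact h3 y e j hj hj'
    · rw [if_neg e]
      exact sum_even_odd _ _

/-- Either the images of `R` and `X` meet in finitely many classes, or they meet in a copy of
`X`. -/
theorem alt {X Z : Ceer} (hat : ∀ W : Ceer, W ≤ X → W ≤ idn 1 ∨ X ≤ W) {g f : ℕ → ℕ}
    (hg : Computable g) (hf : Computable f) :
    (∃ (q : ℕ) (b : ℕ → ℕ), ∀ n m, Z.r (f n) (g m) → ∃ j, j < q ∧ X.r n (b j)) ∨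
      ∃ (e : ℕ → ℕ) (he : Computable e), (∀ n, ∃ m, Z.r (f (e n)) (g m)) ∧ X ≤ X.pull e he := by
  have hP : REPred fun p : ℕ × ℕ => Z.r (f p.1) (g p.2) :=
    re_comp Z.re ((hf.comp Computable.fst).pair (hg.comp Computable.snd))
  have hA : REPred fun n : ℕ => ∃ m, Z.r (f n) (g m) := re_ex hP
  by_cases hne : ∃ n, ∃ m, Z.r (f n) (g m)
  · obtain ⟨e, he, h1, h2⟩ := enum hA hne
    rcases hat (X.pull e he) (red_pull X e he).le with h | h
    · left
      obtain ⟨q, a, ha⟩ := finite_classes h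
      refine ⟨q, fun j => e (a j), fun n m hnm => ?_⟩
      obtain ⟨t, rfl⟩ := h2 n ⟨m, hnm⟩
      exact ha t
    · exact Or.inr ⟨e, he, h1, h⟩
  · left
    exact ⟨0, fun _ => 0, fun n m h => absurd ⟨n, m, h⟩ hne⟩

end DARK2

theorem tDARK2 : T_DARK2 := by
  intro X hat hX R Z hXXR hRZ hXXZ
  obtain ⟨Z', hZ', ⟨g, hg, hg'⟩, ⟨f, hf, hf'⟩⟩ := common hRZ hXXZ
  have hf0 : ∀ x y, X.r x y ↔ Z'.r (f (2 * x)) (f (2 * y)) := fun x y =>
    (sum_even x y).symm.trans (hf' _ _)
  have hf1 : ∀ x y, X.r x y ↔ Z'.r (f (2 * x + 1)) (f (2 * y + 1)) := fun x y =>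
    (sum_odd x y).symm.trans (hf' _ _)
  have hc0 : Computable fun n => f (2 * n) := hf.comp comp_two_mul
  have hc1 : Computable fun n => f (2 * n + 1) := hf.comp comp_two_mul_add
  rcases DARK2.alt (X := X) (Z := Z') hat hg hc0 with ⟨q, b, hb⟩ | ⟨e₀, he₀, h0, hX0⟩
  · exact le_trans (DARK2.key hX hg hg' hc0 hf0 q b hb) hZ'
  rcases DARK2.alt (X := X) (Z := Z') hat hg hc1 with ⟨q, b, hb⟩ | ⟨e₁, he₁, h1, hX1⟩
  · exact le_trans (DARK2.key hX hg hg' hc1 hf1 q b hb) hZ'
  exfalso
  apply hXXR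
  refine le_trans (sum_mono hX0 hX1) ?_
  obtain ⟨q, hq, hq', hq''⟩ : ∃ q : ℕ → ℕ, Computable q ∧
      (∀ x y, ((X.pull e₀ he₀).sum (X.pull e₁ he₁)).r x y ↔ (X.sum X).r (q x) (q y)) ∧
      ∀ x, ∃ m, Z'.r (f (q x)) (g m) := by
    refine ⟨fun x => if x % 2 = 0 then 2 * e₀ (x / 2) else 2 * e₁ (x / 2) + 1,
      comp_ite dec_even (comp_two_mul.comp (he₀.comp comp_div2))
        (comp_two_mul_add.comp (he₁.comp comp_div2)), ?_, ?_⟩
    · intro x y
      beta_reduce
      rcases Nat.even_or_odd' x with ⟨u, rfl | rfl⟩ <;>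
        rcases Nat.even_or_odd' y with ⟨v, rfl | rfl⟩
      · have e1 : 2 * u % 2 = 0 := by omega
        have e2 : 2 * v % 2 = 0 := by omega
        have e3 : 2 * u / 2 = u := by omega
        have e4 : 2 * v / 2 = v := by omega
        rw [if_pos e1, if_pos e2, e3, e4, sum_even, sum_even]
        rfl
      · have e1 : 2 * u % 2 = 0 := by omega
        have e2 : ¬ (2 * v + 1) % 2 = 0 := by omega
        rw [if_pos e1, if_neg e2]
        exact ⟨fun h => absurd h (sum_even_odd _ _), fun h => absurd h (sum_even_odd _ _)⟩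
      · have e1 : ¬ (2 * u + 1) % 2 = 0 := by omega
        have e2 : 2 * v % 2 = 0 := by omega
        rw [if_neg e1, if_pos e2]
        exact ⟨fun h => absurd h (sum_odd_even _ _), fun h => absurd h (sum_odd_even _ _)⟩
      · have e1 : ¬ (2 * u + 1) % 2 = 0 := by omega
        have e2 : ¬ (2 * v + 1) % 2 = 0 := by omega
        have e3 : (2 * u + 1) / 2 = u := by omega
        have e4 : (2 * v + 1) / 2 = v := by omega
        rw [if_neg e1, if_neg e2, e3, e4, sum_odd, sum_odd]
        rfl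
    · intro x
      beta_reduce
      by_cases e : x % 2 = 0
      · rw [if_pos e]
        exact h0 _
      · rw [if_neg e]
        exact h1 _
  have hP : REPred fun p : ℕ × ℕ => Z'.r (f (q p.1)) (g p.2) :=
    re_comp Z'.re ((hf.comp (hq.comp Computable.fst)).pair (hg.comp Computable.snd))
  obtain ⟨m, hm, hm'⟩ := search hP hq''
  refine Red.le ⟨m, hm, fun x y => ?_⟩
  have hx : Z'.r (f (q x)) (g (m x)) := hm' x
  have hy : Z'.r (f (q y)) (g (m y)) := hm' y
  rw [hq', hf', hg']
  constructor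
  · intro h
    exact Z'.eqv.trans (Z'.eqv.symm hx) (Z'.eqv.trans h hy)
  · intro h
    exact Z'.eqv.trans hx (Z'.eqv.trans h (Z'.eqv.symm hy))

end Pool.Agent.CeerI
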