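import Pool.Agent.CeerI.Comp

/-!
# Ceers modulo finite ceers (MP_58a0a5_lc): definitions
-/

namespace Pool.Agent.CeerI

/-- A ceer: a computably enumerable equivalence relation on `ℕ`. -/
structure Ceer where
  r : ℕ → ℕ → Prop
  eqv : Equivalence r
  re : REPred fun p : ℕ × ℕ => r p.1 p.2

/-- Computable reducibility `R ≤ S` of ceers. -/
def Red (R S : Ceer) : Prop :=
  ∃ f : ℕ → ℕ, Computable f ∧ ∀ x y, R.r x y ↔ S.r (f x) (f y)

namespace Ceer

/-- `R ⊕ S`: a copy of `R` on the even numbers and of `S` on the odd numbers. -/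
def sum (R S : Ceer) : Ceer where
  r x y := (x % 2 = 0 ∧ y % 2 = 0 ∧ R.r (x / 2) (y / 2)) ∨
    (x % 2 = 1 ∧ y % 2 = 1 ∧ S.r (x / 2) (y / 2))
  eqv := by
    refine ⟨fun x => ?_, ?_, ?_⟩
    · rcases Nat.mod_two_eq_zero_or_one x with h | h
      · exact Or.inl ⟨h, h, R.eqv.refl _⟩
      · exact Or.inr ⟨h, h, S.eqv.refl _⟩
    · rintro x y (⟨h1, h2, h3⟩ | ⟨h1, h2, h3⟩)
      · exact Or.inl ⟨h2, h1, R.eqv.symm h3⟩
      · exact Or.inr ⟨h2, h1, S.eqv.symm h3⟩
    · rintro x y z (⟨h1, h2, h3⟩ | ⟨h1, h2, h3⟩) (⟨h4, h5, h6⟩ | ⟨h4, h5, h6⟩)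
      · exact Or.inl ⟨h1, h5, R.eqv.trans h3 h6⟩
      · omega
      · omega
      · exact Or.inr ⟨h1, h5, S.eqv.trans h3 h6⟩
  re := by
    have e1 : ComputablePred fun p : ℕ × ℕ => p.1 % 2 = 0 :=
      dec_eq (comp_mod2.comp Computable.fst) (Computable.const 0)
    have e2 : ComputablePred fun p : ℕ × ℕ => p.2 % 2 = 0 :=
      dec_eq (comp_mod2.comp Computable.snd) (Computable.const 0)
    have o1 : ComputablePred fun p : ℕ × ℕ => p.1 % 2 = 1 :=
      dec_eq (comp_mod2.comp Computable.fst) (Computable.const 1)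
    have o2 : ComputablePred fun p : ℕ × ℕ => p.2 % 2 = 1 :=
      dec_eq (comp_mod2.comp Computable.snd) (Computable.const 1)
    have d : Computable fun p : ℕ × ℕ => (p.1 / 2, p.2 / 2) :=
      (comp_div2.comp Computable.fst).pair (comp_div2.comp Computable.snd)
    exact re_or (re_and e1.to_re (re_and e2.to_re (re_comp R.re d)))
      (re_and o1.to_re (re_and o2.to_re (re_comp S.re d)))

/-- `Id`: equality on `ℕ`. -/
def ident : Ceer where
  r x y := x = y
  eqv := ⟨fun _ => rfl, fun h => h.symm, fun h h' => h.trans h'⟩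
  re := (dec_eq Computable.fst Computable.snd).to_re

/-- `Id_n`: congruence modulo `n`. -/
def idn (n : ℕ) : Ceer where
  r x y := x % n = y % n
  eqv := ⟨fun _ => rfl, fun h => h.symm, fun h h' => h.trans h'⟩
  re := (dec_eq ((comp_mod n).comp Computable.fst) ((comp_mod n).comp Computable.snd)).to_re

/-- `R ⊕ Id_k`, where `R ⊕ Id_0 = R`. -/
def plus (R : Ceer) : ℕ → Ceer
  | 0 => R
  | k + 1 => R.sum (idn (k + 1))

end Ceer

/-- `R ≤_I S`: `R ≤ S ⊕ Id_k` for some `k`. -/
def LeI (R S : Ceer) : Prop := ∃ k, Red R (S.plus k)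

theorem Red.refl (R : Ceer) : Red R R := ⟨id, Computable.id, fun _ _ => Iff.rfl⟩

theorem Red.trans {R S T : Ceer} (h : Red R S) (h' : Red S T) : Red R T := by
  obtain ⟨f, hf, h1⟩ := h
  obtain ⟨g, hg, h2⟩ := h'
  exact ⟨fun x => g (f x), hg.comp hf, fun x y => (h1 x y).trans (h2 _ _)⟩

/-- `S ⊕ Id_k` reduces to `T ⊕ Id_{k+l}` if `S` reduces to `T ⊕ Id_l`. -/
theorem Red.plus_plus {S T : Ceer} {l : ℕ} (h : Red S (T.plus l)) (k : ℕ) :
    Red (S.plus k) (T.plus (l + k)) := by
  obtain ⟨f, hf, h⟩ := h
  cases k with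
  | zero => exact ⟨f, hf, h⟩
  | succ k =>
    cases l with
    | zero =>
      have e : 0 + (k + 1) = k + 1 := by omega
      rw [e]
      refine ⟨fun x => if x % 2 = 0 then 2 * f (x / 2) else x, ?_, ?_⟩
      · exact comp_ite dec_even (comp_two_mul.comp (hf.comp comp_div2)) Computable.id
      · intro x y
        change (_ ∨ _) ↔ (_ ∨ _)
        rcases Nat.mod_two_eq_zero_or_one x with hx | hx <;>
          rcases Nat.mod_two_eq_zero_or_one y with hy | hy <;>
          simp only [hx, hy, if_true, if_false, one_ne_zero, zero_ne_one, Nat.mul_mod_right,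
            false_and, and_false, true_and, or_false, false_or, h]
        · simp [Ceer.plus]
    | succ l =>
      have e : l + 1 + (k + 1) = (l + k + 1) + 1 := by omega
      rw [e]
      refine ⟨fun x => if x % 2 = 0 then
        (if f (x / 2) % 2 = 0 then f (x / 2) else 2 * ((f (x / 2) / 2) % (l + 1)) + 1)
        else 2 * (l + 1 + (x / 2) % (k + 1)) + 1, ?_, ?_⟩
      · refine comp_ite dec_even (comp_ite (dec_comp dec_even (hf.comp comp_div2))
          (hf.comp comp_div2) ?_) ?_
        · exact comp_two_mul_add.comp ((comp_mod (l + 1)).comp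
            (comp_div2.comp (hf.comp comp_div2)))
        · refine comp_two_mul_add.comp ?_
          exact (Primrec.nat_add.comp (Primrec.const (l + 1)) Primrec.id).to_comp.comp
            ((comp_mod (k + 1)).comp comp_div2)
      · intro x y
        have hm : ∀ n : ℕ, n % (l + 1) < l + 1 := fun n => Nat.mod_lt _ (by omega)
        have hm' : ∀ n : ℕ, n % (k + 1) < k + 1 := fun n => Nat.mod_lt _ (by omega)
        have e1 : ∀ n : ℕ, (n % (l + 1)) % (l + k + 1 + 1) = n % (l + 1) := fun n =>
          Nat.mod_eq_of_lt (by have := hm n; omega)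
        have e2 : ∀ n : ℕ, (l + 1 + n % (k + 1)) % (l + k + 1 + 1) = l + 1 + n % (k + 1) :=
          fun n => Nat.mod_eq_of_lt (by have := hm' n; omega)
        rcases Nat.mod_two_eq_zero_or_one x with hx | hx <;>
          rcases Nat.mod_two_eq_zero_or_one y with hy | hy
        · have h0 : ((S.plus (k + 1)).r x y) ↔ S.r (x / 2) (y / 2) := by
            simp [Ceer.plus, Ceer.sum, hx, hy]
          rw [h0, h]
          simp only [hx, hy, if_true]
          rcases Nat.mod_two_eq_zero_or_one (f (x / 2)) with hfx | hfx <;>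
            rcases Nat.mod_two_eq_zero_or_one (f (y / 2)) with hfy | hfy
          · simp [Ceer.plus, Ceer.sum, hfx, hfy]
          · simp only [hfx, hfy, if_true, if_false, one_ne_zero]
            simp only [Ceer.plus, Ceer.sum, hfx, hfy]
            omega
          · simp only [hfx, hfy, if_true, if_false, one_ne_zero]
            simp only [Ceer.plus, Ceer.sum, hfx, hfy]
            omega
          · simp only [hfx, hfy, if_false, one_ne_zero]
            have a1 : ∀ n : ℕ, (2 * n + 1) % 2 = 1 := by omega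
            have a2 : ∀ n : ℕ, (2 * n + 1) / 2 = n := by omega
            simp only [Ceer.plus, Ceer.sum, Ceer.idn, hfx, hfy, a1, a2, e1]
            simp
        · have h0 : ¬ ((S.plus (k + 1)).r x y) := by
            simp only [Ceer.plus, Ceer.sum, hx, hy]
            omega
          simp only [h0, false_iff]
          simp only [hx, hy, if_true, if_false, one_ne_zero]
          rcases Nat.mod_two_eq_zero_or_one (f (x / 2)) with hfx | hfx
          · simp only [hfx, if_true]
            simp only [Ceer.plus, Ceer.sum, hfx]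
            omega
          · simp only [hfx, if_false, one_ne_zero]
            have a1 : ∀ n : ℕ, (2 * n + 1) % 2 = 1 := by omega
            have a2 : ∀ n : ℕ, (2 * n + 1) / 2 = n := by omega
            simp only [Ceer.plus, Ceer.sum, Ceer.idn, a1, a2, e1, e2]
            have := hm (f (x / 2) / 2)
            omega
        · have h0 : ¬ ((S.plus (k + 1)).r x y) := by
            simp only [Ceer.plus, Ceer.sum, hx, hy]
            omega
          simp only [h0, false_iff]
          simp only [hx, hy, if_true, if_false, one_ne_zero]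
          rcases Nat.mod_two_eq_zero_or_one (f (y / 2)) with hfx | hfx
          · simp only [hfx, if_true]
            simp only [Ceer.plus, Ceer.sum, hfx]
            omega
          · simp only [hfx, if_false, one_ne_zero]
            have a1 : ∀ n : ℕ, (2 * n + 1) % 2 = 1 := by omega
            have a2 : ∀ n : ℕ, (2 * n + 1) / 2 = n := by omega
            simp only [Ceer.plus, Ceer.sum, Ceer.idn, a1, a2, e1, e2]
            have := hm (f (y / 2) / 2)
            omega
        · have h0 : ((S.plus (k + 1)).r x y) ↔ (x / 2) % (k + 1) = (y / 2) % (k + 1) := by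
            simp [Ceer.plus, Ceer.sum, Ceer.idn, hx, hy]
          rw [h0]
          simp only [hx, hy, if_false, one_ne_zero]
          have a1 : ∀ n : ℕ, (2 * n + 1) % 2 = 1 := by omega
          have a2 : ∀ n : ℕ, (2 * n + 1) / 2 = n := by omega
          simp only [Ceer.plus, Ceer.sum, Ceer.idn, a1, a2, e2]
          simp

theorem LeI.refl (R : Ceer) : LeI R R := ⟨0, Red.refl R⟩

theorem LeI.trans {R S T : Ceer} (h : LeI R S) (h' : LeI S T) : LeI R T := by
  obtain ⟨k, hk⟩ := h
  obtain ⟨l, hl⟩ := h'
  exact ⟨l + k, hk.trans (hl.plus_plus k)⟩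

/-- Ceers are preordered by `≤_I`. -/
instance : Preorder Ceer where
  le := LeI
  le_refl := LeI.refl
  le_trans _ _ _ := LeI.trans

/-- The poset of the degrees of ceers modulo finite ceers. -/
abbrev CeersI : Type := Antisymmetrization Ceer (· ≤ ·)

/-- The degree of a ceer modulo finite ceers. -/
def deg (R : Ceer) : CeersI := toAntisymmetrization (· ≤ ·) R

end Pool.Agent.CeerI
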