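import Pool.Agent.CeerI.Abs

/-!
# MP_58a0a5_lc: the formula
-/

open FirstOrder FirstOrder.Language

namespace Pool.Agent.CeerI

section

variable {n : ℕ}

/-- The free variable `x`. -/
def vx : Language.order.Term (Fin 1 ⊕ Fin n) := .var (Sum.inl 0)

/-- The bound variable number `i`. -/
def vb (i : Fin n) : Language.order.Term (Fin 1 ⊕ Fin n) := .var (Sum.inr i)

/-- `φ(x)`: the defining formula of `Id`. -/
def phi : Language.order.Formula (Fin 1) :=
  -- `x` is an atom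
  (∼ (∀' (Term.le vx (vb 0)))) ⊓
  (∀' ((Term.le (vb 0) vx) ⟹ ((∀' (Term.le (vb 0) (vb 1))) ⊔ (vb 0 =' vx)))) ⊓
  -- `x` has a join with every `y`
  (∀' ∃' ((Term.le vx (vb 1)) ⊓ (Term.le (vb 0) (vb 1)) ⊓
    (∀' ((Term.le vx (vb 2)) ⟹ ((Term.le (vb 0) (vb 2)) ⟹ (Term.le (vb 1) (vb 2))))))) ⊓
  -- `x` has no cover
  (∼ (∃' ((Term.le vx (vb 0)) ⊓ (∼ (vx =' vb 0)) ⊓
    (∀' ((Term.le (vb 1) (vb 0)) ⟹
      ((∀' (Term.le (vb 1) (vb 2))) ⊔ ((vb 1 =' vx) ⊔ (vb 1 =' vb 0))))) ⊓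
    (∀' ((Term.le vx (vb 1)) ⟹ ((∼ (Term.le (vb 0) (vb 1))) ⟹
      ∃' (((Term.le (vb 1) (vb 2)) ⊓ (Term.le (vb 0) (vb 2)) ⊓
        (∀' ((Term.le (vb 1) (vb 3)) ⟹ ((Term.le (vb 0) (vb 3)) ⟹ (Term.le (vb 2) (vb 3)))))) ⊓
        (∀' ((Term.le (vb 1) (vb 3)) ⟹ ((Term.le (vb 3) (vb 2)) ⟹
          ((vb 3 =' vb 1) ⊔ (vb 3 =' vb 2))))))))))))

end

/-- The meaning of the formula. -/
theorem realize_phi {M : Type} [PartialOrder M] (x : M) :
    @Formula.Realize Language.order M (orderStructure M) (Fin 1) phi (fun _ => x) ↔ Phi x := by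
  let _ : Language.order.Structure M := orderStructure M
  have : Language.order.OrderedStructure M := ⟨fun _ => Iff.rfl⟩
  simp only [phi, Formula.Realize, BoundedFormula.realize_inf, BoundedFormula.realize_not,
    BoundedFormula.realize_all, BoundedFormula.realize_ex, BoundedFormula.realize_imp,
    BoundedFormula.realize_sup, BoundedFormula.realize_bdEqual, Term.realize_le, vx, vb,
    Term.realize_var, Sum.elim_inl, Sum.elim_inr]
  simp [Phi, IsAtom', IsLeast', IsJoin, HasCover, Fin.snoc, and_assoc]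

end Pool.Agent.CeerI
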