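import Pool.Agent.CeerI.Targets
import Pool.Agent.CeerI.Form

/-!
# MP_58a0a5_lc: the assembly
-/

open FirstOrder FirstOrder.Language

namespace Pool.Agent.CeerI

open Ceer

theorem deg_le {R S : Ceer} : deg R ≤ deg S ↔ R ≤ S := Iff.rfl

theorem deg_eq {R S : Ceer} : deg R = deg S ↔ R ≤ S ∧ S ≤ R := by
  rw [le_antisymm_iff, deg_le, deg_le]

theorem exists_deg (d : CeersI) : ∃ R, deg R = d :=
  ⟨ofAntisymmetrization (· ≤ ·) d, toAntisymmetrization_ofAntisymmetrization _ d⟩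

/-- The sum of degrees. -/
noncomputable instance : Add CeersI :=
  ⟨fun a b => deg ((ofAntisymmetrization (· ≤ ·) a).sum (ofAntisymmetrization (· ≤ ·) b))⟩

/-- The degree of the finite ceers. -/
instance : Zero CeersI := ⟨deg (idn 1)⟩

theorem zero_eq : (0 : CeersI) = deg (idn 1) := rfl

theorem add_deg (R S : Ceer) : deg R + deg S = deg (R.sum S) := by
  have h : ∀ R : Ceer, R ≤ ofAntisymmetrization (· ≤ ·) (deg R) ∧
      ofAntisymmetrization (· ≤ ·) (deg R) ≤ R := by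
    intro R
    rw [← deg_eq]
    exact (toAntisymmetrization_ofAntisymmetrization _ (deg R)).symm
  change deg _ = _
  rw [deg_eq]
  exact ⟨sum_mono (h R).2 (h S).2, sum_mono (h R).1 (h S).1⟩

noncomputable instance : AddCommMonoid CeersI where
  nsmul := nsmulRec
  add_assoc := by
    intro a b c
    obtain ⟨R, rfl⟩ := exists_deg a
    obtain ⟨S, rfl⟩ := exists_deg b
    obtain ⟨T, rfl⟩ := exists_deg c
    rw [add_deg, add_deg, add_deg, add_deg, deg_eq]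
    exact ⟨(red_assoc R S T).le, (red_assoc' R S T).le⟩
  zero_add := by
    intro a
    obtain ⟨R, rfl⟩ := exists_deg a
    rw [zero_eq, add_deg, deg_eq]
    exact ⟨((red_comm _ _).le).trans (sum_bot_le R), le_sum_right _ _⟩
  add_zero := by
    intro a
    obtain ⟨R, rfl⟩ := exists_deg a
    rw [zero_eq, add_deg, deg_eq]
    exact ⟨sum_bot_le R, le_sum_left _ _⟩
  add_comm := by
    intro a b
    obtain ⟨R, rfl⟩ := exists_deg a
    obtain ⟨S, rfl⟩ := exists_deg b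
    rw [add_deg, add_deg, deg_eq]
    exact ⟨(red_comm _ _).le, (red_comm _ _).le⟩

theorem decomp (hSPLIT : T_SPLIT) : Decomp CeersI where
  zero_le := by
    intro a
    obtain ⟨R, rfl⟩ := exists_deg a
    exact bot_le' R
  mono := by
    intro a a' b b' h h'
    obtain ⟨R, rfl⟩ := exists_deg a
    obtain ⟨R', rfl⟩ := exists_deg a'
    obtain ⟨S, rfl⟩ := exists_deg b
    obtain ⟨S', rfl⟩ := exists_deg b'
    rw [add_deg, add_deg]
    exact sum_mono h h'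
  split := by
    intro s r q h
    obtain ⟨S, rfl⟩ := exists_deg s
    obtain ⟨R, rfl⟩ := exists_deg r
    obtain ⟨Q, rfl⟩ := exists_deg q
    rw [add_deg] at h
    obtain ⟨S₁, S₂, h1, h2, h3, h4⟩ := hSPLIT S R Q h
    refine ⟨deg S₁, deg S₂, h1, h2, ?_⟩
    rw [add_deg, deg_eq]
    exact ⟨h3, h4⟩

/-- All ceers of the degree have only computable classes. -/
def CI (d : CeersI) : Prop := ∀ R, deg R = d → AllComp R

theorem CI_deg (R : Ceer) : CI (deg R) ↔ AllComp R :=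
  ⟨fun h => h R rfl, fun h _ hS => AllComp.of_le (deg_eq.1 hS).1 h⟩

theorem deg_eq_zero {R : Ceer} : deg R = 0 ↔ R ≤ idn 1 := by
  rw [zero_eq, deg_eq]
  exact ⟨fun h => h.1, fun h => ⟨h, bot_le' R⟩⟩

theorem elts (hIDAT : T_IDAT) (hIDJ : T_IDJ) (hDARK2 : T_DARK2) (hD1 : T_D1)
    (hTH2 : T_TH2) (hNOJ : T_NOJ) {E : Ceer} {Q : ℕ → ℕ → Prop} (hE : IsTheta E Q) {R₀ : Ceer}
    (hR₀ : ¬ ident ≤ R₀) (hR₀' : ¬ AllComp R₀) : Elts (deg ident) (deg E) (deg R₀) CI := by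
  obtain ⟨h1, h2, h3⟩ := hIDAT
  obtain ⟨t1, -, t3, t4⟩ := hTH2 E Q hE
  have hatom : ∀ w, w ≤ deg ident → w = 0 ∨ w = deg ident := by
    intro w hw
    obtain ⟨W, rfl⟩ := exists_deg w
    rcases h2 W hw with h | h
    · exact Or.inl (deg_eq_zero.2 h)
    · exact Or.inr (deg_eq.2 ⟨hw, h⟩)
  refine ⟨fun h => h1 (deg_eq_zero.1 h), hatom, ?_, ?_, hE.light.le, ?_, ?_, ?_, ?_, hR₀, ?_, ?_, ?_⟩
  · rw [add_deg, deg_eq]
    exact ⟨h3, le_sum_left _ _⟩
  · intro y z hy hyz hz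
    obtain ⟨Y, rfl⟩ := exists_deg y
    obtain ⟨Z, rfl⟩ := exists_deg z
    rw [add_deg]
    exact hIDJ Y Z hy hyz hz
  · intro h
    exact t3 (deg_eq.1 h).1
  · intro w hw
    obtain ⟨W, rfl⟩ := exists_deg w
    rcases t1 W hw with h | h
    · rcases hatom (deg W) h with h | h
      · exact Or.inl h
      · exact Or.inr (Or.inl h)
    · exact Or.inr (Or.inr (deg_eq.2 ⟨hw, h⟩))
  · rw [add_deg]
    exact t4
  · intro x hx hC
    obtain ⟨X, rfl⟩ := exists_deg x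
    obtain ⟨Z, hz1, hz2, hz3⟩ := hNOJ E Q hE X hx (fun h => hC ((CI_deg X).2 h))
    refine ⟨deg Z, hz1, hz2, ?_⟩
    rw [add_deg]
    exact hz3
  · rw [CI_deg]
    exact hR₀'
  · intro x hx0 hx
    obtain ⟨X, rfl⟩ := exists_deg x
    rw [add_deg]
    exact hD1 X hx fun h => hx0 (deg_eq_zero.2 h)
  · intro x hx hC r z hr hrz hz
    obtain ⟨X, rfl⟩ := exists_deg x
    obtain ⟨R, rfl⟩ := exists_deg r
    obtain ⟨Z, rfl⟩ := exists_deg z
    rw [add_deg] at hr hz ⊢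
    refine hDARK2 X (fun W hW => ?_) ((CI_deg X).1 hC) R Z hr hrz hz
    rcases hx (deg W) hW with h | h
    · exact Or.inl (deg_eq_zero.1 h)
    · exact Or.inr (deg_eq.1 h).2

/-- The assembly. -/
theorem main (hSPLIT : T_SPLIT) (hIDAT : T_IDAT) (hIDJ : T_IDJ) (hDARK2 : T_DARK2) (hD1 : T_D1)
    (hTH2 : T_TH2) (hNOJ : T_NOJ) (hTHETA : T_THETA) (hSIMPLE : T_SIMPLE) (d : CeersI) :
    @Formula.Realize Language.order CeersI (orderStructure CeersI) (Fin 1) phi (fun _ => d) ↔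
      d = deg ident := by
  obtain ⟨E, Q, hE⟩ := hTHETA
  obtain ⟨R₀, hR₀, hR₀'⟩ := hSIMPLE
  rw [realize_phi]
  exact (elts hIDAT hIDJ hDARK2 hD1 hTH2 hNOJ hE hR₀ hR₀').phi_iff (decomp hSPLIT) d

end Pool.Agent.CeerI
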