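import Pool.Agent.CeerI.Targets

/-!
# MP_58a0a5_lc: `Id` is an atom (job CEER-IDAT)
-/

namespace Pool.Agent.CeerI

open Ceer

namespace IDAT

/-- A ceer below `Id` is the kernel of a computable function. -/
theorem kernel {R : Ceer} (h : R ≤ ident) :
    ∃ c : ℕ → ℕ, Computable c ∧ ∀ x y, R.r x y ↔ c x = c y := by
  obtain ⟨k, f, hf, h⟩ := le_iff_succ.1 h
  refine ⟨fun x => if f x % 2 = 0 then f x else 2 * ((f x / 2) % (k + 1)) + 1,
    comp_ite (dec_comp dec_even hf) hf
      (comp_two_mul_add.comp ((comp_mod (k + 1)).comp (comp_div2.comp hf))), ?_⟩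
  intro x y
  beta_reduce
  rw [h]
  rcases Nat.even_or_odd' (f x) with ⟨u, hu | hu⟩ <;>
    rcases Nat.even_or_odd' (f y) with ⟨v, hv | hv⟩
  · have e1 : 2 * u % 2 = 0 := by omega
    have e2 : 2 * v % 2 = 0 := by omega
    rw [hu, hv, sum_even]
    simp only [e1, e2, if_true]
    change u = v ↔ _
    omega
  · have e1 : 2 * u % 2 = 0 := by omega
    have e2 : (2 * v + 1) % 2 ≠ 0 := by omega
    rw [hu, hv]
    simp only [e1, e2, if_true, if_false, sum_even_odd, false_iff]
    omega
  · have e1 : (2 * u + 1) % 2 ≠ 0 := by omega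
    have e2 : 2 * v % 2 = 0 := by omega
    rw [hu, hv]
    simp only [e1, e2, if_true, if_false, sum_odd_even, false_iff]
    omega
  · have e1 : (2 * u + 1) % 2 ≠ 0 := by omega
    have e2 : (2 * v + 1) % 2 ≠ 0 := by omega
    have e3 : (2 * u + 1) / 2 = u := by omega
    have e4 : (2 * v + 1) / 2 = v := by omega
    rw [hu, hv, sum_odd, idn_iff]
    simp only [e1, e2, e3, e4, if_false]
    omega

end IDAT

theorem tIDAT : T_IDAT := by
  refine ⟨?_, ?_, ?_⟩
  · intro h
    obtain ⟨f, -, hf⟩ := ident_le_iff.1 h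
    have h01 : ident.r 0 1 := (hf 0 1).2 (by
      rw [idn_iff, Nat.mod_one, Nat.mod_one])
    have : (0 : ℕ) = 1 := h01
    omega
  · intro R hR
    obtain ⟨c, hc, hc'⟩ := IDAT.kernel hR
    by_cases hb : ∃ N, ∀ x, c x < N
    · obtain ⟨N, hN⟩ := hb
      exact Or.inl (le_of_finite hc hN hc' _)
    · right
      push Not at hb
      have hP : REPred fun p : ℕ × ℕ => c p.2 = p.1 :=
        (dec_eq (hc.comp Computable.snd) Computable.fst).to_re
      have hA : REPred fun n : ℕ => ∃ m, c m = n := re_ex hP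
      obtain ⟨s, hs, hsm, hsA⟩ := strictMono_enum hA (by
        intro N
        obtain ⟨x, hx⟩ := hb N
        exact ⟨c x, hx, x, rfl⟩)
      have hQ : REPred fun p : ℕ × ℕ => c p.2 = s p.1 :=
        (dec_eq (hc.comp Computable.snd) (hs.comp Computable.fst)).to_re
      obtain ⟨m, hm, hm'⟩ := search hQ hsA
      have hm'' : ∀ x, c (m x) = s x := hm'
      refine ident_le_iff.2 ⟨m, hm, fun x y => ?_⟩
      rw [hc', hm'', hm'']
      exact hsm.injective.eq_iff.symm
  · refine Red.le ⟨id, Computable.id, fun x y => ?_⟩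
    rcases Nat.even_or_odd' x with ⟨u, rfl | rfl⟩ <;>
      rcases Nat.even_or_odd' y with ⟨v, rfl | rfl⟩
    · rw [sum_even]
      change u = v ↔ 2 * u = 2 * v
      omega
    · simp only [sum_even_odd, false_iff]
      change ¬ (2 * u = 2 * v + 1)
      omega
    · simp only [sum_odd_even, false_iff]
      change ¬ (2 * u + 1 = 2 * v)
      omega
    · rw [sum_odd]
      change u = v ↔ 2 * u + 1 = 2 * v + 1
      omega

end Pool.Agent.CeerI
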