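import Pool.Agent.CeerI.Targets

/-!
# MP_58a0a5_lc: `R ⊕ Id` is the join of `R` and `Id` (job CEER-IDJ)
-/

namespace Pool.Agent.CeerI

open Ceer

theorem tIDJ : T_IDJ := by
  intro R Z hR hRZ hIZ
  obtain ⟨Z', hZ', ⟨g, hg, hg'⟩, ⟨f, hf, hf'⟩⟩ := common hRZ hIZ
  have hff : ∀ x y, Z'.r (f x) (f y) ↔ x = y := fun x y => (hf' x y).symm
  -- the numbers whose class is met by `g`
  have hP : REPred fun p : ℕ × ℕ => Z'.r (f p.1) (g p.2) :=
    re_comp Z'.re ((hf.comp Computable.fst).pair (hg.comp Computable.snd))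
  have hA : REPred fun n : ℕ => ∃ m, Z'.r (f n) (g m) := re_ex hP
  have hb : ∃ N, ∀ n, N ≤ n → ∀ m, ¬ Z'.r (f n) (g m) := by
    by_contra hcon
    push Not at hcon
    obtain ⟨s, hs, hsm, hsA⟩ := strictMono_enum hA (by
      intro N
      obtain ⟨n, hn, m, hm⟩ := hcon N
      exact ⟨n, hn, m, hm⟩)
    have hQ : REPred fun p : ℕ × ℕ => Z'.r (f (s p.1)) (g p.2) :=
      re_comp Z'.re ((hf.comp (hs.comp Computable.fst)).pair (hg.comp Computable.snd))
    obtain ⟨m, hm, hm'⟩ := search hQ hsA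
    apply hR
    refine ident_le_iff.2 ⟨m, hm, fun x y => ?_⟩
    have hx : Z'.r (f (s x)) (g (m x)) := hm' x
    have hy : Z'.r (f (s y)) (g (m y)) := hm' y
    have e1 : ident.r x y ↔ s x = s y := hsm.injective.eq_iff.symm
    rw [e1, ← hff, hg']
    constructor
    · intro h
      exact Z'.eqv.trans (Z'.eqv.symm hx) (Z'.eqv.trans h hy)
    · intro h
      exact Z'.eqv.trans hx (Z'.eqv.trans h (Z'.eqv.symm hy))
  obtain ⟨N, hN⟩ := hb
  have h1 : Red (R.sum ident) Z' := by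
    refine red_sum_of hg (g := fun y => f (y + N)) (hf.comp
      (Primrec.nat_add.comp Primrec.id (Primrec.const N)).to_comp) hg' ?_ ?_
    · intro x y
      rw [hff]
      change x = y ↔ _
      omega
    · intro x y h
      exact hN (y + N) (by omega) x (Z'.eqv.symm h)
  exact le_trans h1.le hZ'

end Pool.Agent.CeerI
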