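import Pool.Agent.CeerI.Targets

set_option autoImplicit false

/-!
# NOJ: an upper bound of a dark ceer and `E` which is not above their sum
-/

namespace Pool.Agent.CeerI

open Ceer

namespace NOJ

/-- the classes which are merged -/
def C (X E : Ceer) (a u : ℕ) : Prop := (X.sum E).r u (2 * a) ∨ (X.sum E).r u 1

theorem C_even (X E : Ceer) (a x : ℕ) : C X E a (2 * x) ↔ X.r x a := by
  unfold C
  constructor
  · rintro (h | h)
    · exact (sum_even _ _).1 h
    · exact absurd h (sum_even_odd x 0)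
  · intro h
    exact Or.inl ((sum_even _ _).2 h)

theorem C_odd (X E : Ceer) (a x : ℕ) : C X E a (2 * x + 1) ↔ E.r x 0 := by
  unfold C
  constructor
  · rintro (h | h)
    · exact absurd h (sum_odd_even x a)
    · exact (sum_odd x 0).1 h
  · intro h
    exact Or.inr ((sum_odd x 0).2 h)

theorem C_congr (X E : Ceer) (a : ℕ) {u v : ℕ} (h : (X.sum E).r u v) (hv : C X E a v) :
    C X E a u := by
  rcases hv with h' | h'
  · exact Or.inl ((X.sum E).eqv.trans h h')
  · exact Or.inr ((X.sum E).eqv.trans h h')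

/-- `X ⊕ E` with two classes merged -/
def Z (X E : Ceer) (a : ℕ) : Ceer where
  r u v := (X.sum E).r u v ∨ (C X E a u ∧ C X E a v)
  eqv := by
    refine ⟨fun x => Or.inl ((X.sum E).eqv.refl x), ?_, ?_⟩
    · rintro x y (h | ⟨h, h'⟩)
      · exact Or.inl ((X.sum E).eqv.symm h)
      · exact Or.inr ⟨h', h⟩
    · rintro x y z (h | ⟨h1, h2⟩) (h' | ⟨h3, h4⟩)
      · exact Or.inl ((X.sum E).eqv.trans h h')
      · exact Or.inr ⟨C_congr X E a h h3, h4⟩
      · exact Or.inr ⟨h1, C_congr X E a ((X.sum E).eqv.symm h') h2⟩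
      · exact Or.inr ⟨h1, h4⟩
  re := by
    have hC : ∀ f : ℕ × ℕ → ℕ, Computable f → REPred fun p : ℕ × ℕ => C X E a (f p) := by
      intro f hf
      exact re_or (re_comp (X.sum E).re (hf.pair (Computable.const (2 * a))))
        (re_comp (X.sum E).re (hf.pair (Computable.const 1)))
    exact re_or (X.sum E).re (re_and (hC _ Computable.fst) (hC _ Computable.snd))

variable {X E : Ceer} {a : ℕ}

theorem Z_even (x y : ℕ) : (Z X E a).r (2 * x) (2 * y) ↔ X.r x y := by
  change (_ ∨ _) ↔ _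
  rw [C_even, C_even, sum_even]
  constructor
  · rintro (h | ⟨h, h'⟩)
    · exact h
    · exact X.eqv.trans h (X.eqv.symm h')
  · exact Or.inl

theorem Z_odd (x y : ℕ) : (Z X E a).r (2 * x + 1) (2 * y + 1) ↔ E.r x y := by
  change (_ ∨ _) ↔ _
  rw [C_odd, C_odd, sum_odd]
  constructor
  · rintro (h | ⟨h, h'⟩)
    · exact h
    · exact E.eqv.trans h (E.eqv.symm h')
  · exact Or.inl

theorem Z_even_odd {x y : ℕ} (h : X.r x a) (h' : E.r y 0) :
    (Z X E a).r (2 * x) (2 * y + 1) :=
  Or.inr ⟨(C_even _ _ _ _).2 h, (C_odd _ _ _ _).2 h'⟩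

theorem X_le : X ≤ Z X E a :=
  Red.le ⟨fun x => 2 * x, comp_two_mul, fun x y => (Z_even x y).symm⟩

theorem E_le : E ≤ Z X E a :=
  Red.le ⟨fun x => 2 * x + 1, comp_two_mul_add, fun x y => (Z_odd x y).symm⟩

/-- forget the `E` side -/
def ph (u : ℕ) : ℕ := if u % 2 = 0 then 2 * (u / 2 / 2) else u

theorem ph_comp : Computable ph :=
  comp_ite dec_even (comp_two_mul.comp (comp_div2.comp comp_div2)) Computable.id

theorem ph_iff (k : ℕ) {u v : ℕ} (hu : u % 4 ≠ 2) (hv : v % 4 ≠ 2) :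
    ((Z X E a).sum (idn (k + 1))).r u v ↔ (X.sum (idn (k + 1))).r (ph u) (ph v) := by
  unfold ph
  rcases Nat.even_or_odd' u with ⟨x, rfl | rfl⟩ <;>
    rcases Nat.even_or_odd' v with ⟨y, rfl | rfl⟩
  · have e1 : 2 * x % 2 = 0 := by omega
    have e2 : 2 * y % 2 = 0 := by omega
    obtain ⟨x', rfl⟩ : ∃ x', x = 2 * x' := ⟨x / 2, by omega⟩
    obtain ⟨y', rfl⟩ : ∃ y', y = 2 * y' := ⟨y / 2, by omega⟩
    have e3 : 2 * (2 * x') / 2 / 2 = x' := by omega
    have e4 : 2 * (2 * y') / 2 / 2 = y' := by omega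
    simp only [e1, e2, e3, e4, if_true, sum_even, Z_even]
  · have e1 : 2 * x % 2 = 0 := by omega
    have e2 : (2 * y + 1) % 2 ≠ 0 := by omega
    simp only [e1, e2, if_true, if_false, sum_even_odd]
  · have e1 : (2 * x + 1) % 2 ≠ 0 := by omega
    have e2 : 2 * y % 2 = 0 := by omega
    simp only [e1, e2, if_true, if_false, sum_odd_even]
  · have e1 : (2 * x + 1) % 2 ≠ 0 := by omega
    have e2 : (2 * y + 1) % 2 ≠ 0 := by omega
    simp only [e1, e2, if_false, sum_odd]

/-- the canonical representatives in `Q k` -/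
theorem canon {E : Ceer} {P : ℕ → Prop} (F : Finset ℕ)
    (hF : ∀ u v, P u → P v → u ≠ v → E.r u v → u ∈ F ∧ v ∈ F) :
    ∃ c : ℕ → ℕ, Computable c ∧ ∀ u v, P u → P v → (E.r u v ↔ c u = c v) := by
  classical
  have hne : ∀ u, u ∈ F → (F.filter fun v => E.r u v).Nonempty := fun u hu =>
    ⟨u, Finset.mem_filter.2 ⟨hu, E.eqv.refl u⟩⟩
  let c : ℕ → ℕ := fun u => if h : u ∈ F then (F.filter fun v => E.r u v).min' (hne u h) else u
  have hcm : ∀ u (h : u ∈ F), c u ∈ F ∧ E.r u (c u) := by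
    intro u h
    have := Finset.min'_mem _ (hne u h)
    simp only [c, h, dif_pos]
    exact Finset.mem_filter.1 this
  have hcn : ∀ u, u ∉ F → c u = u := by
    intro u h
    simp only [c, h, dif_neg, not_false_iff]
  refine ⟨c, ?_, ?_⟩
  · -- the identity outside of a finite set
    have key : ∀ (N : ℕ) (g : ℕ → ℕ), (∀ i, N ≤ i → g i = i) → Computable g := by
      intro N
      induction N with
      | zero =>
        intro g hg
        exact Computable.id.of_eq fun i => (hg i (Nat.zero_le i)).symm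
      | succ N ih =>
        intro g hg
        have h1 := ih (fun i => if i = N then N else g i) (by
          intro i hi
          by_cases e : i = N
          · simp [e]
          · simp only [e, if_false]; exact hg i (by omega))
        have h2 : Computable fun i : ℕ => if i = N then g N else
            (if i = N then N else g i) :=
          comp_ite (dec_eq Computable.id (Computable.const N)) (Computable.const _) h1
        exact h2.of_eq fun i => by
          by_cases e : i = N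
          · simp [e]
          · simp [e]
    refine key (F.sup id + 1) c fun i hi => hcn i fun h => ?_
    have := Finset.le_sup (f := id) h
    simp only [id] at this
    omega
  · intro u v hu hv
    constructor
    · intro h
      by_cases huv : u = v
      · rw [huv]
      · obtain ⟨h1, h2⟩ := hF u v hu hv huv h
        have : (F.filter fun w => E.r u w) = F.filter fun w => E.r v w := by
          ext w
          simp only [Finset.mem_filter]
          exact and_congr_right fun _ =>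
            ⟨fun h' => E.eqv.trans (E.eqv.symm h) h', fun h' => E.eqv.trans h h'⟩
        simp only [c, h1, h2, dif_pos, this]
    · intro h
      by_cases h1 : u ∈ F <;> by_cases h2 : v ∈ F
      · have h3 := (hcm u h1).2
        rw [h] at h3
        exact E.eqv.trans h3 (E.eqv.symm (hcm v h2).2)
      · exfalso
        rw [hcn v h2] at h
        exact h2 (h ▸ (hcm u h1).1)
      · exfalso
        rw [hcn u h1] at h
        exact h1 (h ▸ (hcm v h2).1)
      · rw [hcn u h1, hcn v h2] at h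
        rw [h]
        exact E.eqv.refl v

end NOJ

open NOJ in
theorem tNOJ (hORBIT : T_ORBIT) (hTH2 : T_TH2) : T_NOJ := by
  intro E Q hE X hX hAll
  unfold AllComp at hAll
  push Not at hAll
  obtain ⟨a, ha⟩ := hAll
  refine ⟨Z X E a, X_le, E_le, ?_⟩
  intro hle
  obtain ⟨k, h, hh, hr⟩ := le_iff_succ.1 hle
  have hX' : ¬ Red ident X := fun h => hX (Red.le h)
  have ho : Computable fun m => h (2 * m + 1) := hh.comp comp_two_mul_add
  have hev : Computable fun m => h (2 * m) := hh.comp comp_two_mul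
  -- the numbers on the `E` side
  have hA : ComputablePred fun m => h (2 * m + 1) % 4 = 2 :=
    dec_eq ((comp_mod 4).comp ho) (Computable.const 2)
  have hB : ComputablePred fun m => ¬ h (2 * m + 1) % 4 = 2 := hA.not
  have hrE : ∀ x y, E.r x y ↔
      ((Z X E a).sum (idn (k + 1))).r (h (2 * x + 1)) (h (2 * y + 1)) := fun x y => by
    rw [← hr, sum_odd]
  have hrX : ∀ x y, X.r x y ↔
      ((Z X E a).sum (idn (k + 1))).r (h (2 * x)) (h (2 * y)) := fun x y => by
    rw [← hr, sum_even]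
  rcases hE.dich _ hB.to_re with hI | hII
  swap
  · -- case II: `E ≤ X`
    obtain ⟨f, hf, hf'⟩ := search (P := fun p : ℕ × ℕ => ¬ h (2 * p.2 + 1) % 4 = 2 ∧ E.r p.2 p.1)
      (re_and (re_comp hB.to_re Computable.snd)
        (re_comp E.re (Computable.snd.pair Computable.fst))) hII
    apply hX
    refine le_trans (Red.le hE.light) (le_iff_succ.2 ⟨k, fun n => ph (h (2 * f n + 1)),
      ph_comp.comp (ho.comp hf), fun x y => ?_⟩)
    have hx := hf' x
    have hy := hf' y
    simp only at hx hy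
    rw [← ph_iff (E := E) (a := a) k hx.1 hy.1, ← hrE]
    exact ⟨fun h => E.eqv.trans hx.2 (E.eqv.trans h (E.eqv.symm hy.2)),
      fun h => E.eqv.trans (E.eqv.symm hx.2) (E.eqv.trans h hy.2)⟩
  obtain ⟨k0, hk0⟩ := hI
  rcases hE.dich _ hA.to_re with hI | hA2
  · obtain ⟨k1, hk1⟩ := hI
    obtain ⟨p, hp, -⟩ := hE.out (max k0 k1)
    by_cases hp0 : h (2 * p 0 + 1) % 4 = 2
    · obtain ⟨u, hu, hu'⟩ := hk1 _ hp0
      exact hp 0 u (hE.mono _ _ u (le_max_right _ _) hu) hu'
    · obtain ⟨u, hu, hu'⟩ := hk0 _ hp0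
      exact hp 0 u (hE.mono _ _ u (le_max_left _ _) hu) hu'
  -- the function `r`
  obtain ⟨f, hf, hf'⟩ := search (P := fun p : ℕ × ℕ => h (2 * p.2 + 1) % 4 = 2 ∧ E.r p.2 p.1)
    (re_and (re_comp hA.to_re Computable.snd)
      (re_comp E.re (Computable.snd.pair Computable.fst))) hA2
  have hrr : Computable fun m => h (2 * m + 1) / 2 / 2 := comp_div2.comp (comp_div2.comp ho)
  have hform : ∀ u : ℕ, u % 4 = 2 → u = 2 * (2 * (u / 2 / 2) + 1) := by omega
  have hform0 : ∀ u : ℕ, u % 2 = 0 → u % 4 ≠ 2 → u = 2 * (2 * (u / 2 / 2)) := by omega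
  have hrA : ∀ m m', h (2 * m + 1) % 4 = 2 → h (2 * m' + 1) % 4 = 2 →
      (E.r m m' ↔ E.r (h (2 * m + 1) / 2 / 2) (h (2 * m' + 1) / 2 / 2)) := by
    intro m m' hm hm'
    rw [hrE]
    conv_lhs => rw [hform _ hm, hform _ hm']
    rw [sum_even, Z_odd]
  have hW : REPred fun j => ∃ m, h (2 * m + 1) % 4 = 2 ∧ h (2 * m + 1) / 2 / 2 = j := by
    refine re_ex (p := fun q : ℕ × ℕ => h (2 * q.2 + 1) % 4 = 2 ∧ h (2 * q.2 + 1) / 2 / 2 = q.1)
      (re_and (re_comp hA.to_re Computable.snd) ?_)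
    exact (dec_eq (hrr.comp Computable.snd) Computable.fst).to_re
  rcases hE.dich _ hW with hI | hW2
  · -- `E ≤ Id`
    obtain ⟨k2, hk2⟩ := hI
    obtain ⟨F, hF⟩ := hE.fin k2
    obtain ⟨c, hc, hc'⟩ := canon F hF
    have hex : ∀ n, ∃ u, Q k2 u ∧ E.r (h (2 * f n + 1) / 2 / 2) u := fun n =>
      hk2 _ ⟨f n, (hf' n).1, rfl⟩
    obtain ⟨g, hg, hg'⟩ := search
      (P := fun p : ℕ × ℕ => Q k2 p.2 ∧ E.r (h (2 * f p.1 + 1) / 2 / 2) p.2)
      (re_and (re_comp (hE.dec k2).to_re Computable.snd)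
        (re_comp E.re ((hrr.comp (hf.comp Computable.fst)).pair Computable.snd))) hex
    refine (hTH2 E Q hE).2.2.1 (Red.le ⟨fun n => c (g n), hc.comp hg, fun x y => ?_⟩)
    have hx := hf' x
    have hy := hf' y
    have gx := hg' x
    have gy := hg' y
    simp only at hx hy gx gy
    change E.r x y ↔ c (g x) = c (g y)
    rw [← hc' _ _ gx.1 gy.1]
    have h1 : E.r x y ↔ E.r (f x) (f y) :=
      ⟨fun h => E.eqv.trans hx.2 (E.eqv.trans h (E.eqv.symm hy.2)),
        fun h => E.eqv.trans (E.eqv.symm hx.2) (E.eqv.trans h hy.2)⟩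
    rw [h1, hrA _ _ hx.1 hy.1]
    exact ⟨fun h => E.eqv.trans (E.eqv.symm gx.2) (E.eqv.trans h gy.2),
      fun h => E.eqv.trans gx.2 (E.eqv.trans h (E.eqv.symm gy.2))⟩
  -- the `X` part
  have hno : ∀ n m j, h (2 * m + 1) % 4 = 2 → h (2 * m + 1) / 2 / 2 = j → ∀ z,
      h (2 * n) = 2 * z → ¬ (Z X E a).r z (2 * j + 1) := by
    intro n m j hm hj z hz hZ
    have h1 : ((Z X E a).sum (idn (k + 1))).r (h (2 * n)) (h (2 * m + 1)) := by
      rw [hz, hform _ hm, sum_even, hj]
      exact hZ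
    rw [← hr] at h1
    exact sum_even_odd _ _ h1
  have hX1 : ∀ n, h (2 * n) % 4 ≠ 2 := by
    intro n hn
    obtain ⟨j, ⟨m, hm, hj⟩, hjE⟩ := hW2 (h (2 * n) / 2 / 2)
    exact hno n m j hm hj _ (hform _ hn) ((Z_odd _ _).2 (E.eqv.symm hjE))
  have hX2 : ∀ n, h (2 * n) % 2 = 0 → ¬ X.r (h (2 * n) / 2 / 2) a := by
    intro n hn hXa
    obtain ⟨j, ⟨m, hm, hj⟩, hjE⟩ := hW2 0
    exact hno n m j hm hj _ (hform0 _ hn (hX1 n)) (Z_even_odd hXa hjE)
  refine ha ((hORBIT X hX' k (fun n => ph (h (2 * n))) (ph_comp.comp hev) ?_).1 a ?_)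
  · intro x y
    rw [← ph_iff (E := E) (a := a) k (hX1 x) (hX1 y), ← hrX]
  · intro n hn
    by_cases h2 : h (2 * n) % 2 = 0
    · have e : ph (h (2 * n)) / 2 = h (2 * n) / 2 / 2 := by
        simp only [ph, h2, if_true]
        omega
      rw [e]
      exact hX2 n h2
    · exfalso
      simp only [ph, h2, if_false] at hn

end Pool.Agent.CeerI
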