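import Pool.Agent.CeerI.Targets

/-!
# CEER-ORBIT: classes missed by a self-reduction modulo a finite ceer (MP_58a0a5_lc)
-/

set_option autoImplicit false

namespace Pool.Agent.CeerI

open Ceer

namespace ORBIT

variable {X : Ceer} {k : ℕ} {h : ℕ → ℕ}

/-- The data of a reduction of `X` to `X ⊕ Id_{k+1}`. -/
theorem parity (hh : ∀ x y, X.r x y ↔ (X.sum (idn (k + 1))).r (h x) (h y)) {m n : ℕ}
    (hmn : X.r m n) : h m % 2 = h n % 2 := by
  rcases (hh m n).1 hmn with h1 | h1
  · rw [h1.1, h1.2.1]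
  · rw [h1.1, h1.2.1]

theorem even_iff (hh : ∀ x y, X.r x y ↔ (X.sum (idn (k + 1))).r (h x) (h y)) {m n : ℕ}
    (hm : h m % 2 = 0) (hn : h n % 2 = 0) : X.r m n ↔ X.r (h m / 2) (h n / 2) := by
  rw [hh]
  simp [Ceer.sum, hm, hn]

theorem odd_iff (hh : ∀ x y, X.r x y ↔ (X.sum (idn (k + 1))).r (h x) (h y)) {m n : ℕ}
    (hm : h m % 2 = 1) (hn : h n % 2 = 1) :
    X.r m n ↔ (h m / 2) % (k + 1) = (h n / 2) % (k + 1) := by
  rw [hh]
  simp [Ceer.sum, idn, hm, hn]

/-- The map followed along the orbits. -/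
def g (h : ℕ → ℕ) (n : ℕ) : ℕ := h n / 2

/-- Push forward along the orbits. -/
theorem push (hh : ∀ x y, X.r x y ↔ (X.sum (idn (k + 1))).r (h x) (h y)) {a b : ℕ} (m : ℕ)
    (ha : ∀ l < m, h ((g h)^[l] a) % 2 = 0) (hab : X.r a b) :
    (∀ l < m, h ((g h)^[l] b) % 2 = 0) ∧ X.r ((g h)^[m] a) ((g h)^[m] b) := by
  induction m with
  | zero => exact ⟨fun l hl => absurd hl (Nat.not_lt_zero l), hab⟩
  | succ m ih =>
    obtain ⟨h1, h2⟩ := ih fun l hl => ha l (by omega)
    have h3 := ha m (by omega)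
    have h4 : h ((g h)^[m] b) % 2 = 0 := (parity hh h2).symm.trans h3
    refine ⟨fun l hl => ?_, ?_⟩
    · rcases Nat.lt_succ_iff_lt_or_eq.1 hl with hl | rfl
      · exact h1 l hl
      · exact h4
    · rw [Function.iterate_succ_apply', Function.iterate_succ_apply']
      exact (even_iff hh h3 h4).1 h2

/-- Pull back along the orbits. -/
theorem pull (hh : ∀ x y, X.r x y ↔ (X.sum (idn (k + 1))).r (h x) (h y)) {a b : ℕ} (m : ℕ)
    (ha : ∀ l < m, h ((g h)^[l] a) % 2 = 0) (hb : ∀ l < m, h ((g h)^[l] b) % 2 = 0)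
    (hab : X.r ((g h)^[m] a) ((g h)^[m] b)) : X.r a b := by
  induction m with
  | zero => exact hab
  | succ m ih =>
    refine ih (fun l hl => ha l (by omega)) (fun l hl => hb l (by omega)) ?_
    rw [Function.iterate_succ_apply', Function.iterate_succ_apply'] at hab
    exact (even_iff hh (ha m (by omega)) (hb m (by omega))).2 hab

theorem comp_g (hc : Computable h) : Computable (g h) := comp_div2.comp hc

theorem comp_orbit (hc : Computable h) (a : ℕ) : Computable fun i => (g h)^[i] a := by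
  have h1 := Computable.nat_rec (f := fun n : ℕ => n) (g := fun _ : ℕ => a)
    (h := fun (_ : ℕ) (p : ℕ × ℕ) => g h p.2) Computable.id (Computable.const _)
    (((comp_g hc).comp (Computable.snd.comp Computable.snd)).to₂)
  refine h1.of_eq fun n => ?_
  induction n with
  | zero => rfl
  | succ n ih =>
    rw [Function.iterate_succ_apply', ← ih]

theorem comp_iterate (hc : Computable h) (m : ℕ) : Computable (g h)^[m] := by
  induction m with
  | zero => exact Computable.id
  | succ m ih =>
    rw [Function.iterate_succ']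
    exact (comp_g hc).comp ih

/-- The orbit of a missed number leaves the even part. -/
theorem exists_odd (hX : ¬ Red ident X) (hc : Computable h)
    (hh : ∀ x y, X.r x y ↔ (X.sum (idn (k + 1))).r (h x) (h y)) {a : ℕ}
    (ha : ∀ n, h n % 2 = 0 → ¬ X.r (h n / 2) a) :
    ∃ m, h ((g h)^[m] a) % 2 = 1 ∧ ∀ l < m, h ((g h)^[l] a) % 2 = 0 := by
  have hex : ∃ m, h ((g h)^[m] a) % 2 = 1 := by
    by_contra hcon
    have hev : ∀ m, h ((g h)^[m] a) % 2 = 0 := by
      intro m
      rcases Nat.mod_two_eq_zero_or_one (h ((g h)^[m] a)) with h1 | h1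
      · exact h1
      · exact absurd ⟨m, h1⟩ hcon
    apply hX
    refine ⟨fun i => (g h)^[i] a, comp_orbit hc a, ?_⟩
    have key : ∀ i d, ¬ X.r ((g h)^[i] a) ((g h)^[i + (d + 1)] a) := by
      intro i d hr
      have h2 : X.r a ((g h)^[d + 1] a) := by
        refine pull hh i (fun l _ => hev l) (fun l _ => ?_) ?_
        · rw [← Function.iterate_add_apply]
          exact hev _
        · rw [← Function.iterate_add_apply]
          exact hr
      rw [Function.iterate_succ_apply'] at h2
      exact ha _ (hev d) (X.eqv.symm h2)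
    intro x y
    constructor
    · intro hxy
      have : x = y := hxy
      rw [this]
      exact X.eqv.refl _
    · intro hxy
      rcases lt_trichotomy x y with hlt | heq | hlt
      · obtain ⟨d, rfl⟩ := Nat.exists_eq_add_of_lt hlt
        exact absurd hxy (key x d)
      · exact heq
      · obtain ⟨d, rfl⟩ := Nat.exists_eq_add_of_lt hlt
        exact absurd (X.eqv.symm hxy) (key y d)
  refine ⟨Nat.find hex, Nat.find_spec hex, fun l hl => ?_⟩
  rcases Nat.mod_two_eq_zero_or_one (h ((g h)^[l] a)) with h1 | h1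
  · exact h1
  · exact absurd h1 (Nat.find_min hex hl)

/-- Two missed numbers with the same colour. -/
theorem same_colour (hh : ∀ x y, X.r x y ↔ (X.sum (idn (k + 1))).r (h x) (h y)) {a b m m' : ℕ}
    (ha : ∀ n, h n % 2 = 0 → ¬ X.r (h n / 2) a)
    (hm : h ((g h)^[m] a) % 2 = 1) (hm' : h ((g h)^[m'] b) % 2 = 1)
    (hl : ∀ l < m, h ((g h)^[l] a) % 2 = 0) (hl' : ∀ l < m', h ((g h)^[l] b) % 2 = 0)
    (hle : m ≤ m')
    (hcol : (h ((g h)^[m] a) / 2) % (k + 1) = (h ((g h)^[m'] b) / 2) % (k + 1)) :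
    X.r a b := by
  obtain ⟨d, rfl⟩ := Nat.exists_eq_add_of_le hle
  have h1 : X.r ((g h)^[m] a) ((g h)^[m] ((g h)^[d] b)) := by
    rw [← Function.iterate_add_apply]
    exact (odd_iff hh hm hm').2 hcol
  have h2 : X.r a ((g h)^[d] b) := by
    refine pull hh m hl (fun l hlm => ?_) h1
    rw [← Function.iterate_add_apply]
    exact hl' _ (by omega)
  cases d with
  | zero => exact h2
  | succ d =>
    rw [Function.iterate_succ_apply'] at h2
    exact absurd (X.eqv.symm h2) (ha _ (hl' d (by omega)))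

end ORBIT

open ORBIT

theorem tORBIT : T_ORBIT := by
  intro X hX k h hc hh
  refine ⟨fun a ha => ?_, fun a ha => ?_⟩
  · obtain ⟨m, hm, hl⟩ := exists_odd hX hc hh ha
    have hdec1 : ∀ m : ℕ, ComputablePred fun n => ∀ l < m, h ((g h)^[l] n) % 2 = 0 := by
      intro m
      induction m with
      | zero =>
        refine dec_iff.2 ⟨fun _ => true, Computable.const true, fun a => ?_⟩
        simp
      | succ m ih =>
        refine ComputablePred.of_eq (dec_and ih (dec_comp dec_even
          (hc.comp (comp_iterate hc m)))) fun n => ?_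
        constructor
        · rintro ⟨h1, h2⟩ l hl
          rcases Nat.lt_succ_iff_lt_or_eq.1 hl with hl | rfl
          · exact h1 l hl
          · exact h2
        · intro h1
          exact ⟨fun l hl => h1 l (by omega), h1 m (by omega)⟩
    refine ComputablePred.of_eq (dec_and (hdec1 m) (dec_and
      (dec_eq (comp_mod2.comp (hc.comp (comp_iterate hc m))) (Computable.const 1))
      (dec_eq ((comp_mod (k + 1)).comp (comp_div2.comp (hc.comp (comp_iterate hc m))))
        (Computable.const ((h ((g h)^[m] a) / 2) % (k + 1)))))) fun n => ?_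
    constructor
    · rintro ⟨h1, h2, h3⟩
      exact ORBIT.pull hh m hl h1 ((odd_iff hh hm h2).2 h3.symm)
    · intro h1
      obtain ⟨h2, h3⟩ := push hh m hl h1
      have h4 : h ((g h)^[m] n) % 2 = 1 := (parity hh h3).symm.trans hm
      exact ⟨h2, h4, ((odd_iff hh hm h4).1 h3).symm⟩
  · choose m hm hl using fun i => exists_odd hX hc hh (ha i)
    obtain ⟨i, j, hij, hcol⟩ := Fintype.exists_ne_map_eq_of_card_lt
      (fun i : Fin (k + 2) => (⟨(h ((g h)^[m i] (a i)) / 2) % (k + 1),
        Nat.mod_lt _ (Nat.succ_pos k)⟩ : Fin (k + 1))) (by simp)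
    have hcol' : (h ((g h)^[m i] (a i)) / 2) % (k + 1) =
        (h ((g h)^[m j] (a j)) / 2) % (k + 1) := Fin.mk.inj_iff.1 hcol
    rcases le_total (m i) (m j) with hle | hle
    · exact ⟨i, j, hij, same_colour hh (ha i) (hm i) (hm j) (hl i) (hl j) hle hcol'⟩
    · exact ⟨j, i, hij.symm, same_colour hh (ha j) (hm j) (hm i) (hl j) (hl i) hle hcol'.symm⟩

end Pool.Agent.CeerI
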