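import Pool.Agent.CeerI.Targets

/-!
# MP_58a0a5_lc: job CEER-SIMPLE

Post's simple set `A`, and the ceer with the class `A` and singletons otherwise, which is dark and
has a noncomputable class.
-/

namespace Pool.Agent.CeerI

open Ceer

namespace SIMPLE

/-- The test of Post's construction: `x = (unpair k).1` is bigger than `2 e` and is found in `W_e`
after `(unpair k).2` stages. -/
def test (q : ℕ × ℕ) : Bool :=
  decide (2 * q.1 < (Nat.unpair q.2).1) &&
    (Nat.Partrec.Code.evaln (Nat.unpair q.2).2 (Denumerable.ofNat Nat.Partrec.Code q.1)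
      (Nat.unpair q.2).1).isSome

theorem test_comp : Computable test := by
  have h1 : Computable fun q : ℕ × ℕ => decide (2 * q.1 < (Nat.unpair q.2).1) := by
    have : PrimrecPred fun q : ℕ × ℕ => 2 * q.1 < (Nat.unpair q.2).1 :=
      Primrec.nat_lt.comp (Primrec.nat_mul.comp (Primrec.const 2) Primrec.fst)
        (Primrec.fst.comp (Primrec.unpair.comp Primrec.snd))
    exact this.decide.to_comp
  have h2 : Computable fun q : ℕ × ℕ =>
      (Nat.Partrec.Code.evaln (Nat.unpair q.2).2 (Denumerable.ofNat Nat.Partrec.Code q.1)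
        (Nat.unpair q.2).1).isSome := by
    have : Primrec fun q : ℕ × ℕ =>
      (Nat.Partrec.Code.evaln (Nat.unpair q.2).2 (Denumerable.ofNat Nat.Partrec.Code q.1)
        (Nat.unpair q.2).1) :=
      Nat.Partrec.Code.primrec_evaln.comp
        (((Primrec.snd.comp (Primrec.unpair.comp Primrec.snd)).pair
          ((Primrec.ofNat Nat.Partrec.Code).comp Primrec.fst)).pair
            (Primrec.fst.comp (Primrec.unpair.comp Primrec.snd)))
    exact (Primrec.option_isSome.comp this).to_comp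
  exact Primrec.and.to_comp.comp h1 h2

/-- The first witness for `e`. -/
def first : ℕ →. ℕ := fun e => Nat.rfind fun k => (Part.some (test (e, k)) : Part Bool)

theorem first_partrec : Partrec first := Partrec.rfind test_comp.partrec.to₂

/-- Post's simple set. -/
def A (x : ℕ) : Prop := ∃ e k, k ∈ first e ∧ (Nat.unpair k).1 = x

theorem A_re : REPred A := by
  obtain ⟨c, hc⟩ := Nat.Partrec.Code.exists_code.1 (Partrec.nat_iff.1 first_partrec)
  have h1 : Primrec fun q : ℕ × ℕ => (Nat.Partrec.Code.evaln (Nat.unpair q.2).2 c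
      (Nat.unpair q.2).1).map fun k => (Nat.unpair k).1 := by
    refine Primrec.option_map (Nat.Partrec.Code.primrec_evaln.comp
        (((Primrec.snd.comp (Primrec.unpair.comp Primrec.snd)).pair
          (Primrec.const c)).pair
            (Primrec.fst.comp (Primrec.unpair.comp Primrec.snd)))) ?_
    exact (Primrec.fst.comp (Primrec.unpair.comp Primrec.snd)).to₂
  have h2 : PrimrecPred fun q : ℕ × ℕ => ((Nat.Partrec.Code.evaln (Nat.unpair q.2).2 c
      (Nat.unpair q.2).1).map fun k => (Nat.unpair k).1) = some q.1 :=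
    Primrec.eq.comp h1 (Primrec.option_some.comp Primrec.fst)
  refine (re_ex h2.computablePred.to_re).of_eq fun x => ?_
  constructor
  · rintro ⟨n, hn⟩
    obtain ⟨k, hk, hx⟩ := Option.map_eq_some_iff.1 hn
    refine ⟨(Nat.unpair n).1, k, ?_, hx⟩
    rw [← hc]
    exact Nat.Partrec.Code.evaln_sound hk
  · rintro ⟨e, k, hk, hx⟩
    rw [← hc] at hk
    obtain ⟨t, ht⟩ := Nat.Partrec.Code.evaln_complete.1 hk
    refine ⟨Nat.pair e t, ?_⟩
    simp only [Nat.unpair_pair]
    exact Option.map_eq_some_iff.2 ⟨k, ht, hx⟩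

theorem mem_first {e k : ℕ} (h : k ∈ first e) : test (e, k) = true := by
  exact (Part.mem_some_iff.1 (Nat.rfind_spec h)).symm

theorem test_iff {e k : ℕ} : test (e, k) = true ↔ 2 * e < (Nat.unpair k).1 ∧
    (Nat.Partrec.Code.evaln (Nat.unpair k).2 (Denumerable.ofNat Nat.Partrec.Code e)
      (Nat.unpair k).1).isSome = true := by
  simp [test]

/-- `A` meets every infinite recursively enumerable set. -/
theorem A_meets {W : ℕ → Prop} (hW : REPred W) (h : ∀ N, ∃ a, N ≤ a ∧ W a) :
    ∃ x, A x ∧ W x := by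
  obtain ⟨c, hc⟩ := Nat.Partrec.Code.exists_code.1 hW
  have hdom : ∀ a, W a ↔ (Nat.Partrec.Code.eval c a).Dom := by
    intro a
    rw [hc]
    simp [Part.dom_iff_mem, Part.assert]
  obtain ⟨x, hx, hWx⟩ := h (2 * Encodable.encode c + 1)
  obtain ⟨y, hy⟩ := Part.dom_iff_mem.1 ((hdom x).1 hWx)
  obtain ⟨t, ht⟩ := Nat.Partrec.Code.evaln_complete.1 hy
  have h1 : test (Encodable.encode c, Nat.pair x t) = true := by
    rw [test_iff]
    simp only [Nat.unpair_pair, Denumerable.ofNat_encode]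
    exact ⟨by omega, Option.isSome_iff_exists.2 ⟨y, ht⟩⟩
  have h2 : (first (Encodable.encode c)).Dom := by
    refine Nat.rfind_dom.2 ⟨Nat.pair x t, ?_, fun _ => trivial⟩
    simp [h1]
  obtain ⟨k, hk⟩ := Part.dom_iff_mem.1 h2
  refine ⟨(Nat.unpair k).1, ⟨_, k, hk, rfl⟩, ?_⟩
  have h3 := (test_iff.1 (mem_first hk)).2
  rw [Denumerable.ofNat_encode] at h3
  obtain ⟨z, hz⟩ := Option.isSome_iff_exists.1 h3
  rw [hdom, Part.dom_iff_mem]
  exact ⟨z, Nat.Partrec.Code.evaln_sound hz⟩

/-- The complement of `A` is infinite. -/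
theorem A_compl (N : ℕ) : ∃ a, N ≤ a ∧ ¬ A a := by
  by_contra hcon
  push Not at hcon
  have h1 : ∀ x, N ≤ x → ∃ e, 2 * e < x ∧ ∃ k, k ∈ first e ∧ (Nat.unpair k).1 = x := by
    intro x hx
    obtain ⟨e, k, hk, hkx⟩ := hcon x hx
    have := (test_iff.1 (mem_first hk)).1
    exact ⟨e, by omega, k, hk, hkx⟩
  choose! e he hk using h1
  have hm : Set.MapsTo e (Finset.Icc N (2 * N + 2) : Finset ℕ) (Finset.range (N + 1) : Finset ℕ) := by
    intro x hx
    simp only [Finset.coe_Icc, Set.mem_Icc] at hx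
    have := he x hx.1
    simp only [Finset.coe_range, Set.mem_Iio]
    omega
  obtain ⟨x, hx, y, hy, hxy, hexy⟩ := Finset.exists_ne_map_eq_of_card_lt_of_maps_to
    (by rw [Nat.card_Icc, Finset.card_range]; omega) hm
  rw [Finset.mem_Icc] at hx hy
  obtain ⟨k, hkx, rfl⟩ := hk x hx.1
  obtain ⟨l, hly, rfl⟩ := hk y hy.1
  rw [hexy] at hkx
  exact hxy (by rw [Part.mem_unique hkx hly])

/-- The ceer with the class `A` and singletons. -/
def simple : Ceer where
  r x y := x = y ∨ (A x ∧ A y)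
  eqv := by
    refine ⟨fun x => Or.inl rfl, ?_, ?_⟩
    · rintro x y (rfl | ⟨h1, h2⟩)
      · exact Or.inl rfl
      · exact Or.inr ⟨h2, h1⟩
    · rintro x y z (rfl | ⟨h1, h2⟩) (rfl | ⟨h3, h4⟩)
      · exact Or.inl rfl
      · exact Or.inr ⟨h3, h4⟩
      · exact Or.inr ⟨h1, h2⟩
      · exact Or.inr ⟨h1, h4⟩
  re := re_or (dec_eq Computable.fst Computable.snd).to_re
    (re_and (re_comp A_re Computable.fst) (re_comp A_re Computable.snd))

theorem not_allComp : ¬ AllComp simple := by
  intro h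
  obtain ⟨a, ha, -⟩ := A_meets (W := fun _ => True)
    ((re_bool (Computable.const true)).of_eq fun _ => by simp) fun N => ⟨N, le_rfl, trivial⟩
  have h1 : REPred fun x => ¬ A x := by
    refine ((h a).not.to_re).of_eq fun x => ?_
    refine not_congr ⟨?_, fun hx => Or.inr ⟨ha, hx⟩⟩
    rintro (rfl | ⟨-, hx⟩)
    · exact ha
    · exact hx
  obtain ⟨x, hx, hx'⟩ := A_meets h1 A_compl
  exact hx' hx

theorem dark : ¬ ident ≤ simple := by
  rw [ident_le_iff]
  rintro ⟨s, hs, h⟩
  have hinj : ∀ n m, s n = s m → n = m := fun n m hnm => (h n m).2 (Or.inl hnm)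
  have hone : ∀ n m, A (s n) → A (s m) → n = m := fun n m h1 h2 => (h n m).2 (Or.inr ⟨h1, h2⟩)
  obtain ⟨n₀, hn₀⟩ : ∃ n₀, ∀ n, n₀ < n → ¬ A (s n) := by
    by_cases hex : ∃ n, A (s n)
    · obtain ⟨n, hn⟩ := hex
      exact ⟨n, fun m hm hA => by have := hone m n hA hn; omega⟩
    · exact ⟨0, fun n _ hA => hex ⟨n, hA⟩⟩
  have hre : REPred fun y : ℕ => ∃ n, n₀ < n ∧ s n = y := by
    refine re_ex (p := fun q : ℕ × ℕ => n₀ < q.2 ∧ s q.2 = q.1) (re_and ?_ ?_)
    · have : PrimrecPred fun p : ℕ × ℕ => n₀ < p.2 :=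
        Primrec.nat_lt.comp (Primrec.const n₀) Primrec.snd
      exact this.computablePred.to_re
    · exact (dec_eq (hs.comp Computable.snd) Computable.fst).to_re
  obtain ⟨x, hx, n, hn, rfl⟩ := A_meets hre (by
    intro N
    by_contra hcon
    push Not at hcon
    have hm : Set.MapsTo (fun i => s (n₀ + 1 + i)) (Finset.range (N + 1) : Finset ℕ)
        (Finset.range N : Finset ℕ) := by
      intro i _
      simp only [Finset.coe_range, Set.mem_Iio]
      by_contra hlt
      exact hcon (s (n₀ + 1 + i)) (not_lt.1 hlt) (n₀ + 1 + i) (by omega) rfl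
    obtain ⟨x, hx, y, hy, hxy, he⟩ := Finset.exists_ne_map_eq_of_card_lt_of_maps_to
      (by rw [Finset.card_range, Finset.card_range]; omega) hm
    have := hinj _ _ he
    omega)
  exact hn₀ n hn hx

end SIMPLE

/-- There is a dark ceer with a noncomputable class. -/
theorem tSIMPLE : T_SIMPLE := ⟨SIMPLE.simple, SIMPLE.dark, SIMPLE.not_allComp⟩

end Pool.Agent.CeerI
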