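import Pool.Agent.CeerI.Targets

/-!
# MP_58a0a5_lc: SPLIT, the decomposition property
-/

namespace Pool.Agent.CeerI

open Ceer

namespace SPLIT

/-- A decidable closed part of a ceer as a ceer. -/
theorem piece (S R : Ceer) {P : ℕ → Prop} (hP : ComputablePred P) {g : ℕ → ℕ}
    (hg : Computable g) (hgr : ∀ x y, P x → P y → (S.r x y ↔ R.r (g x) (g y))) :
    ∃ S₁ : Ceer, S₁ ≤ R ∧ (∀ x y, P x → P y → (S.r x y ↔ S₁.r x y)) ∧
      (S₁ = idn 1 ∨ ∃ e : ℕ → ℕ, Computable e ∧ (∀ n, P (e n)) ∧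
        ∀ x y, S₁.r x y ↔ S.r (e x) (e y)) := by
  classical
  by_cases h : ∃ a, P a
  · obtain ⟨a, ha⟩ := h
    have he : Computable fun n => if P n then n else a :=
      comp_ite hP Computable.id (Computable.const a)
    have hPe : ∀ n, P (if P n then n else a) := by
      intro n
      by_cases hn : P n
      · simp [hn]
      · simpa [hn] using ha
    refine ⟨S.pull _ he, ?_, ?_, Or.inr ⟨_, he, hPe, fun _ _ => Iff.rfl⟩⟩
    · exact Red.le ⟨_, hg.comp he, fun x y => hgr _ _ (hPe x) (hPe y)⟩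
    · intro x y hx hy
      change S.r x y ↔ S.r (if P x then x else a) (if P y then y else a)
      rw [if_pos hx, if_pos hy]
  · exact ⟨idn 1, bot_le' R, fun x _ hx => absurd ⟨x, hx⟩ h, Or.inl rfl⟩

theorem le_of_piece {S S₁ : Ceer} {P : ℕ → Prop}
    (h : S₁ = idn 1 ∨ ∃ e : ℕ → ℕ, Computable e ∧ (∀ n, P (e n)) ∧
      ∀ x y, S₁.r x y ↔ S.r (e x) (e y)) : S₁ ≤ S := by
  rcases h with rfl | ⟨e, he, -, hr⟩
  · exact bot_le' S
  · exact Red.le ⟨e, he, hr⟩

end SPLIT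

open SPLIT

theorem tSPLIT : T_SPLIT := by
  intro S R Q h
  obtain ⟨k, f, hf, hr⟩ := le_iff_succ.1 h
  have hP1 : ComputablePred fun n => f n % 2 = 0 ∧ f n / 2 % 2 = 0 :=
    dec_and (dec_comp dec_even hf) (dec_comp dec_even (comp_div2.comp hf))
  have hP2 : ComputablePred fun n => f n % 2 = 0 ∧ f n / 2 % 2 = 1 :=
    dec_and (dec_comp dec_even hf)
      (dec_eq (comp_mod2.comp (comp_div2.comp hf)) (Computable.const 1))
  have hg : Computable fun n => f n / 2 / 2 := comp_div2.comp (comp_div2.comp hf)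
  have key : ∀ n, (∃ u, f n = 2 * (2 * u)) ∨ (∃ u, f n = 2 * (2 * u + 1)) ∨
      ∃ u, f n = 2 * u + 1 := by
    intro n
    rcases Nat.even_or_odd' (f n) with ⟨u, hu | hu⟩
    · rcases Nat.even_or_odd' u with ⟨v, rfl | rfl⟩
      · exact Or.inl ⟨v, hu⟩
      · exact Or.inr (Or.inl ⟨v, hu⟩)
    · exact Or.inr (Or.inr ⟨u, hu⟩)
  obtain ⟨S₁, h1, h1', h1''⟩ := piece S R hP1 hg (by
    rintro x y ⟨hx, hx'⟩ ⟨hy, hy'⟩
    obtain ⟨u, hu⟩ : ∃ u, f x = 2 * (2 * u) := ⟨f x / 2 / 2, by omega⟩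
    obtain ⟨v, hv⟩ : ∃ v, f y = 2 * (2 * v) := ⟨f y / 2 / 2, by omega⟩
    have e1 : f x / 2 / 2 = u := by omega
    have e2 : f y / 2 / 2 = v := by omega
    rw [hr, hu, hv, sum_even, sum_even, ← hu, ← hv, e1, e2])
  obtain ⟨S₂, h2, h2', h2''⟩ := piece S Q hP2 hg (by
    rintro x y ⟨hx, hx'⟩ ⟨hy, hy'⟩
    obtain ⟨u, hu⟩ : ∃ u, f x = 2 * (2 * u + 1) := ⟨f x / 2 / 2, by omega⟩
    obtain ⟨v, hv⟩ : ∃ v, f y = 2 * (2 * v + 1) := ⟨f y / 2 / 2, by omega⟩
    have e1 : f x / 2 / 2 = u := by omega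
    have e2 : f y / 2 / 2 = v := by omega
    rw [hr, hu, hv, sum_even, sum_odd, ← hu, ← hv, e1, e2])
  refine ⟨S₁, S₂, h1, h2, ?_, ?_⟩
  · refine le_iff_succ.2 ⟨k, fun n => if f n % 2 = 0 then
      (if f n / 2 % 2 = 0 then 2 * (2 * n) else 2 * (2 * n + 1)) else 2 * (f n / 2) + 1, ?_, ?_⟩
    · exact comp_ite (dec_comp dec_even hf) (comp_ite (dec_comp dec_even (comp_div2.comp hf))
        (comp_two_mul.comp comp_two_mul) (comp_two_mul.comp comp_two_mul_add))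
        (comp_two_mul_add.comp (comp_div2.comp hf))
    · intro x y
      have a1 : ∀ {n u}, f n = 2 * (2 * u) → f n % 2 = 0 ∧ f n / 2 % 2 = 0 := by
        intro n u h; omega
      have a2 : ∀ {n u}, f n = 2 * (2 * u + 1) → f n % 2 = 0 ∧ f n / 2 % 2 = 1 := by
        intro n u h; omega
      have a3 : ∀ {n u}, f n = 2 * u + 1 → f n % 2 = 1 ∧ f n / 2 = u := by
        intro n u h; omega
      rcases key x with ⟨u, hu⟩ | ⟨u, hu⟩ | ⟨u, hu⟩ <;>
        rcases key y with ⟨v, hv⟩ | ⟨v, hv⟩ | ⟨v, hv⟩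
      · simp only [(a1 hu).1, (a1 hu).2, (a1 hv).1, (a1 hv).2, if_true, sum_even]
        exact h1' x y (a1 hu) (a1 hv)
      · rw [hr, hu, hv]
        simp only [(a1 hu).1, (a1 hu).2, (a2 hv).1, (a2 hv).2, if_true, if_false, one_ne_zero,
          sum_even, sum_even_odd]
      · rw [hr, hu, hv]
        simp only [(a1 hu).1, (a1 hu).2, (a3 hv).1, (a3 hv).2, if_true, if_false, one_ne_zero,
          sum_even_odd]
      · rw [hr, hu, hv]
        simp only [(a2 hu).1, (a2 hu).2, (a1 hv).1, (a1 hv).2, if_true, if_false, one_ne_zero,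
          sum_even, sum_odd_even]
      · simp only [(a2 hu).1, (a2 hu).2, (a2 hv).1, (a2 hv).2, if_true, if_false, one_ne_zero,
          sum_even, sum_odd]
        exact h2' x y (a2 hu) (a2 hv)
      · rw [hr, hu, hv]
        simp only [(a2 hu).1, (a2 hu).2, (a3 hv).1, (a3 hv).2, if_true, if_false, one_ne_zero,
          sum_even_odd]
      · rw [hr, hu, hv]
        simp only [(a3 hu).1, (a3 hu).2, (a1 hv).1, (a1 hv).2, if_true, if_false, one_ne_zero,
          sum_odd_even]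
      · rw [hr, hu, hv]
        simp only [(a3 hu).1, (a3 hu).2, (a2 hv).1, (a2 hv).2, if_true, if_false, one_ne_zero,
          sum_odd_even]
      · rw [hr, hu, hv]
        simp only [(a3 hu).1, (a3 hu).2, (a3 hv).1, (a3 hv).2, if_false, one_ne_zero,
          sum_odd]
  · have hS1 : S₁ ≤ S := le_of_piece (P := fun n => f n % 2 = 0 ∧ f n / 2 % 2 = 0) h1''
    have hS2 : S₂ ≤ S := le_of_piece (P := fun n => f n % 2 = 0 ∧ f n / 2 % 2 = 1) h2''
    rcases h1'' with rfl | ⟨e, he, hPe, hre⟩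
    · exact (Red.le (red_comm _ _)).trans ((sum_bot_le S₂).trans hS2)
    · rcases h2'' with rfl | ⟨e', he', hPe', hre'⟩
      · exact (sum_bot_le S₁).trans hS1
      · refine Red.le (red_sum_of he he' hre hre' fun x y hxy => ?_)
        obtain ⟨hx, hx'⟩ := hPe x
        obtain ⟨hy, hy'⟩ := hPe' y
        obtain ⟨u, hu⟩ : ∃ u, f (e x) = 2 * (2 * u) := ⟨f (e x) / 2 / 2, by omega⟩
        obtain ⟨v, hv⟩ : ∃ v, f (e' y) = 2 * (2 * v + 1) := ⟨f (e' y) / 2 / 2, by omega⟩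
        rw [hr, hu, hv, sum_even] at hxy
        exact sum_even_odd _ _ hxy

end Pool.Agent.CeerI
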