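import Pool.Agent.CeerI.Targets

/-!
# MP_58a0a5_lc, job CEER-TH2: the degree of the ceer of THETA
-/

namespace Pool.Agent.CeerI.TH2

open Pool.Agent.CeerI Ceer

/-- A function which is the identity off a finite set is computable. -/
theorem comp_of_finset (F : Finset ℕ) : ∀ c : ℕ → ℕ, (∀ u, u ∉ F → c u = u) → Computable c := by
  induction F using Finset.induction_on with
  | empty => intro c hc; exact Computable.id.of_eq fun u => (hc u (by simp)).symm
  | @insert b F hb ih =>
    intro c hc
    have h1 := ih (fun i => if i = b then b else c i) (by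
      intro i hi
      by_cases e : i = b
      · simp [e]
      · simp only [e, if_false]
        exact hc i (by simp [e, hi]))
    have h2 : Computable fun i : ℕ => if i = b then c b else (if i = b then b else c i) :=
      comp_ite (dec_eq Computable.id (Computable.const b)) (Computable.const _) h1
    exact h2.of_eq fun i => by
      by_cases e : i = b
      · simp [e]
      · simp [e]

variable {E : Ceer} {Q : ℕ → ℕ → Prop}

/-- On `Q k` the relation `E` is the kernel of a computable function. -/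
theorem exists_c (h : IsTheta E Q) (k : ℕ) :
    ∃ c : ℕ → ℕ, Computable c ∧ ∀ u v, Q k u → Q k v → (E.r u v ↔ c u = c v) := by
  classical
  obtain ⟨F, hF⟩ := h.fin k
  have hex : ∀ u, u ∈ F → ∃ v, v ∈ F ∧ E.r u v := fun u hu => ⟨u, hu, E.eqv.refl u⟩
  let c : ℕ → ℕ := fun u => if hu : u ∈ F then Nat.find (hex u hu) else u
  have hc1 : ∀ u, u ∉ F → c u = u := fun u hu => by simp [c, hu]
  have hc2 : ∀ u, u ∈ F → c u ∈ F ∧ E.r u (c u) := fun u hu => by
    simp only [c, hu, dif_pos]
    exact Nat.find_spec (hex u hu)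
  refine ⟨c, comp_of_finset F c hc1, fun u v hu hv => ⟨fun huv => ?_, fun huv => ?_⟩⟩
  · by_cases e : u = v
    · rw [e]
    · obtain ⟨h1, h2⟩ := hF u v hu hv e huv
      simp only [c, h1, h2, dif_pos]
      apply le_antisymm
      · apply Nat.find_min'
        exact ⟨(Nat.find_spec (hex v h2)).1, E.eqv.trans huv (Nat.find_spec (hex v h2)).2⟩
      · apply Nat.find_min'
        exact ⟨(Nat.find_spec (hex u h1)).1, E.eqv.trans (E.eqv.symm huv)
          (Nat.find_spec (hex u h1)).2⟩
  · by_cases h1 : u ∈ F <;> by_cases h2 : v ∈ F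
    · have a := (hc2 u h1).2
      rw [huv] at a
      exact E.eqv.trans a (E.eqv.symm (hc2 v h2).2)
    · have a := (hc2 u h1).1
      rw [huv, hc1 v h2] at a
      exact absurd a h2
    · have a := (hc2 v h2).1
      rw [← huv, hc1 u h1] at a
      exact absurd a h1
    · rw [hc1 u h1, hc1 v h2] at huv
      rw [huv]
      exact E.eqv.refl v

/-- A reduction to `E ⊕ Id_{k+1}` whose `E` part meets only classes of `Q k₀`. -/
theorem le_ident (h : IsTheta E Q) {R : Ceer} {k k₀ : ℕ} {f : ℕ → ℕ} (hf : Computable f)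
    (hR : ∀ x y, R.r x y ↔ (E.sum (idn (k + 1))).r (f x) (f y))
    (hW : ∀ n, f n % 2 = 0 → ∃ u, Q k₀ u ∧ E.r (f n / 2) u) : R ≤ ident := by
  obtain ⟨c, hc, hc'⟩ := exists_c h k₀
  have hP : REPred fun p : ℕ × ℕ => f p.1 % 2 = 1 ∨ (Q k₀ p.2 ∧ E.r (f p.1 / 2) p.2) := by
    refine re_or ?_ (re_and ?_ ?_)
    · exact (dec_eq (comp_mod2.comp (hf.comp Computable.fst)) (Computable.const 1)).to_re
    · exact re_comp (h.dec k₀).to_re Computable.snd
    · exact re_comp E.re ((comp_div2.comp (hf.comp Computable.fst)).pair Computable.snd)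
  obtain ⟨g, hg, hg'⟩ := search hP (fun n => by
    rcases Nat.mod_two_eq_zero_or_one (f n) with h0 | h0
    · obtain ⟨u, hu⟩ := hW n h0
      exact ⟨u, Or.inr hu⟩
    · exact ⟨0, Or.inl h0⟩)
  simp only at hg'
  refine le_iff_succ.2 ⟨k, fun n => if f n % 2 = 0 then 2 * c (g n) else f n, ?_, fun x y => ?_⟩
  · exact comp_ite (dec_comp dec_even hf) (comp_two_mul.comp (hc.comp hg)) hf
  · rw [hR]
    rcases Nat.even_or_odd' (f x) with ⟨u, hu | hu⟩ <;>
      rcases Nat.even_or_odd' (f y) with ⟨v, hv | hv⟩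
    · have e1 : f x % 2 = 0 := by omega
      have e2 : f y % 2 = 0 := by omega
      have e3 : f x / 2 = u := by omega
      have e4 : f y / 2 = v := by omega
      have g1 := (hg' x).resolve_left (by omega)
      have g2 := (hg' y).resolve_left (by omega)
      simp only [e1, e2, if_true]
      rw [hu, hv, sum_even, sum_even]
      rw [e3] at g1
      rw [e4] at g2
      have : E.r u v ↔ E.r (g x) (g y) :=
        ⟨fun h => E.eqv.trans (E.eqv.symm g1.2) (E.eqv.trans h g2.2),
          fun h => E.eqv.trans g1.2 (E.eqv.trans h (E.eqv.symm g2.2))⟩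
      rw [this, hc' _ _ g1.1 g2.1]
      exact Iff.rfl
    · have e1 : f x % 2 = 0 := by omega
      have e2 : f y % 2 ≠ 0 := by omega
      simp only [e1, e2, if_true, if_false]
      rw [hu, hv]
      simp only [sum_even_odd]
    · have e1 : f x % 2 ≠ 0 := by omega
      have e2 : f y % 2 = 0 := by omega
      simp only [e1, e2, if_true, if_false]
      rw [hu, hv]
      simp only [sum_odd_even]
    · have e1 : f x % 2 ≠ 0 := by omega
      have e2 : f y % 2 ≠ 0 := by omega
      simp only [e1, e2, if_false]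
      rw [hu, hv]
      simp only [sum_odd]

/-- The image in the left part is recursively enumerable. -/
theorem re_W {f : ℕ → ℕ} (hf : Computable f) :
    REPred fun x => ∃ n, f n % 2 = 0 ∧ f n / 2 = x := by
  refine re_ex (p := fun q : ℕ × ℕ => f q.2 % 2 = 0 ∧ f q.2 / 2 = q.1) ?_
  refine re_and ?_ ?_
  · exact (dec_eq (comp_mod2.comp (hf.comp Computable.snd)) (Computable.const 0)).to_re
  · exact (dec_eq (comp_div2.comp (hf.comp Computable.snd)) Computable.fst).to_re

/-- The minimality property. -/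
theorem min (h : IsTheta E Q) (R : Ceer) (hR : R ≤ E) : R ≤ ident ∨ E ≤ R := by
  obtain ⟨k, f, hf, hR⟩ := le_iff_succ.1 hR
  rcases h.dich _ (re_W hf) with ⟨k₀, hk⟩ | hi
  · exact Or.inl (le_ident h hf hR fun n hn => hk _ ⟨n, hn, rfl⟩)
  · right
    have hP : REPred fun p : ℕ × ℕ => f p.2 % 2 = 0 ∧ E.r (f p.2 / 2) p.1 := by
      refine re_and ?_ ?_
      · exact (dec_eq (comp_mod2.comp (hf.comp Computable.snd)) (Computable.const 0)).to_re
      · exact re_comp E.re ((comp_div2.comp (hf.comp Computable.snd)).pair Computable.fst)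
    obtain ⟨j, hj, hj'⟩ := search hP (fun i => by
      obtain ⟨x, ⟨n, hn, rfl⟩, hx⟩ := hi i
      exact ⟨n, hn, hx⟩)
    simp only at hj'
    refine Red.le ⟨j, hj, fun x y => ?_⟩
    rw [hR]
    obtain ⟨h1, h2⟩ := hj' x
    obtain ⟨h3, h4⟩ := hj' y
    have e1 : f (j x) = 2 * (f (j x) / 2) := by omega
    have e2 : f (j y) = 2 * (f (j y) / 2) := by omega
    rw [e1, e2, sum_even]
    exact ⟨fun h => E.eqv.trans h2 (E.eqv.trans h (E.eqv.symm h4)),
      fun h => E.eqv.trans (E.eqv.symm h2) (E.eqv.trans h h4)⟩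

/-- No class is computable. -/
theorem not_comp (h : IsTheta E Q) (a : ℕ) : ¬ ComputablePred (E.r a) := by
  intro ha
  have hW : REPred fun x => ¬ E.r a x := ha.not.to_re
  rcases h.dich _ hW with ⟨k, hk⟩ | hi
  · obtain ⟨p, hp, hp'⟩ := h.out k
    have hin : ∀ n, E.r a (p n) := by
      intro n
      by_contra hn
      obtain ⟨u, hu, hu'⟩ := hk _ hn
      exact hp n u hu hu'
    exact hp' 0 1 (by omega) (E.eqv.trans (E.eqv.symm (hin 0)) (hin 1))
  · obtain ⟨x, hx, hx'⟩ := hi a
    exact hx (E.eqv.symm hx')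

theorem not_le_ident (h : IsTheta E Q) : ¬ E ≤ ident := by
  intro hE
  have h1 : AllComp ident := fun a => by
    have : ComputablePred fun y : ℕ => a = y := dec_eq (Computable.const a) Computable.id
    exact this
  exact not_comp h 0 (h1.of_le hE 0)

theorem not_sum_le (h : IsTheta E Q) : ¬ E.sum ident ≤ E := by
  intro hE
  obtain ⟨k, f, hf, hR⟩ := le_iff_succ.1 hE
  have hev : ∀ a, f (2 * a) % 2 = 0 := by
    intro a
    by_contra hodd
    apply not_comp h a
    have e1 : f (2 * a) = 2 * (f (2 * a) / 2) + 1 := by omega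
    have h1 : ∀ n, E.r a n ↔
        (f (2 * n) % 2 = 1 ∧ (f (2 * a) / 2) % (k + 1) = (f (2 * n) / 2) % (k + 1)) := by
      intro n
      rw [← sum_even (R := E) (S := ident), hR]
      rcases Nat.even_or_odd' (f (2 * n)) with ⟨v, hv | hv⟩
      · have e2 : f (2 * n) % 2 ≠ 1 := by omega
        rw [hv, e1]
        simp only [sum_odd_even, false_iff]
        omega
      · have e2 : f (2 * n) % 2 = 1 := by omega
        have e3 : f (2 * n) / 2 = v := by omega
        rw [e3, hv]
        rw [e1, sum_odd, idn_iff]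
        have e4 : (2 * (f (2 * a) / 2) + 1) / 2 = f (2 * a) / 2 := by omega
        rw [e4]
        have e5 : (2 * v + 1) % 2 = 1 := by omega
        simp only [e5, true_and]
    have hf2 : Computable fun n => f (2 * n) := hf.comp comp_two_mul
    refine ComputablePred.of_eq (dec_and (dec_eq (comp_mod2.comp hf2) (Computable.const 1))
      (dec_eq (Computable.const ((f (2 * a) / 2) % (k + 1)))
        ((comp_mod (k + 1)).comp (comp_div2.comp hf2)))) fun n => (h1 n).symm
  have hf2 : Computable fun n => f (2 * n) := hf.comp comp_two_mul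
  have hR2 : ∀ x y, E.r x y ↔ (E.sum (idn (k + 1))).r (f (2 * x)) (f (2 * y)) := by
    intro x y
    rw [← hR, sum_even]
  rcases h.dich _ (re_W hf2) with ⟨k₀, hk⟩ | hi
  · exact not_le_ident h (le_ident h hf2 hR2 fun n hn => hk _ ⟨n, hn, rfl⟩)
  · have hodd : ∀ i, f (2 * i + 1) % 2 = 1 := by
      intro i
      by_contra hne
      obtain ⟨x, ⟨n, hn, rfl⟩, hx⟩ := hi (f (2 * i + 1) / 2)
      have e1 : f (2 * n) = 2 * (f (2 * n) / 2) := by omega
      have e2 : f (2 * i + 1) = 2 * (f (2 * i + 1) / 2) := by omega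
      have h1 : (E.sum (idn (k + 1))).r (f (2 * n)) (f (2 * i + 1)) := by
        rw [e1, e2, sum_even]
        exact hx
      exact sum_even_odd _ _ ((hR _ _).2 h1)
    have hinj : Function.Injective fun i => (f (2 * i + 1) / 2) % (k + 1) := by
      intro i j hij
      simp only at hij
      have h1 : (E.sum (idn (k + 1))).r (f (2 * i + 1)) (f (2 * j + 1)) :=
        Or.inr ⟨hodd i, hodd j, hij⟩
      have h2 := (hR _ _).2 h1
      rw [sum_odd] at h2
      exact h2
    have hfin : (Set.range fun i => (f (2 * i + 1) / 2) % (k + 1)).Finite := by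
      refine (Set.finite_Iio (k + 1)).subset ?_
      rintro _ ⟨i, rfl⟩
      exact Nat.mod_lt _ (by omega)
    exact Set.infinite_range_of_injective hinj hfin

end Pool.Agent.CeerI.TH2

namespace Pool.Agent.CeerI

/-- TH2: consequences for the degree of `E`. -/
theorem tTH2 : T_TH2 := fun _ _ h =>
  ⟨TH2.min h, TH2.not_comp h, TH2.not_le_ident h, TH2.not_sum_le h⟩

end Pool.Agent.CeerI
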