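import Pool.Agent.CeerI.Targets

set_option autoImplicit false

/-!
# CEER-THETA: the construction of the ceer `E`
-/

namespace Pool.Agent.CeerI

namespace THETA

open Nat.Partrec (Code)

abbrev St : Type := List (ℕ × ℕ × ℕ)

def col (u : ℕ) : ℕ := (Nat.unpair u).1

def mv (v : ℕ) (t : ℕ × ℕ × ℕ) : ℕ := if v = t.2.1 then t.2.2 else v

/-- the leader -/
def L (σ : St) (y : ℕ) : ℕ := σ.foldl mv y

def memK (σ : St) (k : ℕ) : Bool := σ.foldl (fun b t => b || decide (t.1 = k)) false

def cond (σ : St) (s : ℕ) : Bool :=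
  (!(memK σ s.unpair.1)) &&
    ((Code.evaln s.unpair.2.unpair.2 (Denumerable.ofNat Code s.unpair.1.unpair.1)
      s.unpair.2.unpair.1).isSome &&
    decide (s.unpair.1 < col (L σ s.unpair.2.unpair.1)))

def entry (σ : St) (s : ℕ) : ℕ × ℕ × ℕ :=
  if col (L σ s.unpair.1.unpair.2) ≤ col (L σ s.unpair.2.unpair.1) then
    (s.unpair.1, L σ s.unpair.2.unpair.1, L σ s.unpair.1.unpair.2)
  else (s.unpair.1, L σ s.unpair.1.unpair.2, L σ s.unpair.2.unpair.1)

def step (σ : St) (s : ℕ) : St := if cond σ s = true then σ ++ [entry σ s] else σ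

def st (s : ℕ) : St := Nat.rec [] (fun s σ => step σ s) s

theorem st_zero : st 0 = [] := rfl

theorem st_succ (s : ℕ) : st (s + 1) = step (st s) s := rfl

/-! ### Computability -/

theorem primrec_col : Primrec col := Primrec.fst.comp Primrec.unpair

theorem primrec_mv : Primrec₂ mv := by
  have h : PrimrecPred fun p : ℕ × (ℕ × ℕ × ℕ) => p.1 = p.2.2.1 :=
    Primrec.eq.comp Primrec.fst (Primrec.fst.comp (Primrec.snd.comp Primrec.snd))
  exact Primrec.ite h (Primrec.snd.comp (Primrec.snd.comp Primrec.snd)) Primrec.fst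

theorem primrec_L : Primrec₂ L := by
  have h := Primrec.list_foldl (f := fun p : St × ℕ => p.1) (g := fun p : St × ℕ => p.2)
    (h := fun _ q => mv q.1 q.2) Primrec.fst Primrec.snd
    (primrec_mv.comp (Primrec.fst.comp Primrec.snd) (Primrec.snd.comp Primrec.snd))
  exact h

theorem primrec_memK : Primrec₂ memK := by
  have he : PrimrecPred fun p : (St × ℕ) × (Bool × (ℕ × ℕ × ℕ)) => p.2.2.1 = p.1.2 :=
    Primrec.eq.comp (Primrec.fst.comp (Primrec.snd.comp Primrec.snd))
      (Primrec.snd.comp Primrec.fst)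
  have h := Primrec.list_foldl (f := fun p : St × ℕ => p.1) (g := fun _ : St × ℕ => false)
    (h := fun p q => q.1 || decide (q.2.1 = p.2)) Primrec.fst (Primrec.const false)
    (Primrec.or.comp (Primrec.fst.comp Primrec.snd) he.decide)
  exact h

theorem primrec_cond : Primrec₂ cond := by
  have k : Primrec fun p : St × ℕ => p.2.unpair.1 :=
    Primrec.fst.comp (Primrec.unpair.comp Primrec.snd)
  have xt : Primrec fun p : St × ℕ => p.2.unpair.2.unpair :=
    Primrec.unpair.comp (Primrec.snd.comp (Primrec.unpair.comp Primrec.snd))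
  have x : Primrec fun p : St × ℕ => p.2.unpair.2.unpair.1 := Primrec.fst.comp xt
  have t : Primrec fun p : St × ℕ => p.2.unpair.2.unpair.2 := Primrec.snd.comp xt
  have e : Primrec fun p : St × ℕ => p.2.unpair.1.unpair.1 :=
    Primrec.fst.comp (Primrec.unpair.comp k)
  have lx : Primrec fun p : St × ℕ => L p.1 p.2.unpair.2.unpair.1 :=
    primrec_L.comp Primrec.fst x
  have c1 : Primrec fun p : St × ℕ => !(memK p.1 p.2.unpair.1) :=
    Primrec.not.comp (primrec_memK.comp Primrec.fst k)
  have c2 : Primrec fun p : St × ℕ => (Code.evaln p.2.unpair.2.unpair.2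
      (Denumerable.ofNat Code p.2.unpair.1.unpair.1) p.2.unpair.2.unpair.1).isSome :=
    Primrec.option_isSome.comp (Code.primrec_evaln.comp
      ((t.pair ((Primrec.ofNat Code).comp e)).pair x))
  have c3 : PrimrecPred fun p : St × ℕ => p.2.unpair.1 < col (L p.1 p.2.unpair.2.unpair.1) :=
    Primrec.nat_lt.comp k (primrec_col.comp lx)
  exact Primrec.and.comp c1 (Primrec.and.comp c2 c3.decide)

theorem primrec_entry : Primrec₂ entry := by
  have k : Primrec fun p : St × ℕ => p.2.unpair.1 :=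
    Primrec.fst.comp (Primrec.unpair.comp Primrec.snd)
  have x : Primrec fun p : St × ℕ => p.2.unpair.2.unpair.1 :=
    Primrec.fst.comp (Primrec.unpair.comp (Primrec.snd.comp (Primrec.unpair.comp Primrec.snd)))
  have i : Primrec fun p : St × ℕ => p.2.unpair.1.unpair.2 :=
    Primrec.snd.comp (Primrec.unpair.comp k)
  have lx : Primrec fun p : St × ℕ => L p.1 p.2.unpair.2.unpair.1 :=
    primrec_L.comp Primrec.fst x
  have li : Primrec fun p : St × ℕ => L p.1 p.2.unpair.1.unpair.2 :=
    primrec_L.comp Primrec.fst i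
  have c : PrimrecPred fun p : St × ℕ =>
      col (L p.1 p.2.unpair.1.unpair.2) ≤ col (L p.1 p.2.unpair.2.unpair.1) :=
    Primrec.nat_le.comp (primrec_col.comp li) (primrec_col.comp lx)
  exact Primrec.ite c (k.pair (lx.pair li)) (k.pair (li.pair lx))

theorem primrec_step : Primrec₂ step := by
  have c : PrimrecPred fun p : St × ℕ => cond p.1 p.2 = true :=
    Primrec.eq.comp primrec_cond (Primrec.const true)
  have h : Primrec fun p : St × ℕ => p.1 ++ [entry p.1 p.2] :=
    Primrec.list_append.comp Primrec.fst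
      (Primrec.list_cons.comp primrec_entry (Primrec.const []))
  exact Primrec.ite c h Primrec.fst

theorem primrec_st : Primrec st :=
  Primrec.nat_rec₁ (f := fun s σ => step σ s) [] (primrec_step.comp Primrec.snd Primrec.fst)

/-! ### Leaders -/

theorem L_nil (y : ℕ) : L [] y = y := rfl

theorem L_append (σ : St) (t : ℕ × ℕ × ℕ) (y : ℕ) : L (σ ++ [t]) y = mv (L σ y) t := by
  simp [L]

theorem memK_append (σ : St) (t : ℕ × ℕ × ℕ) (k : ℕ) :
    memK (σ ++ [t]) k = (memK σ k || decide (t.1 = k)) := by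
  simp [memK]

/-- the actor of stage `s` -/
theorem entry_fst (σ : St) (s : ℕ) : (entry σ s).1 = s.unpair.1 := by
  unfold entry
  split_ifs <;> rfl

theorem entry_col (σ : St) (s : ℕ) : col (entry σ s).2.2 ≤ col (entry σ s).2.1 := by
  unfold entry
  split_ifs with h
  · exact h
  · exact (not_le.1 h).le

theorem entry_merge (σ : St) (s : ℕ) :
    mv (L σ s.unpair.2.unpair.1) (entry σ s) = mv (L σ s.unpair.1.unpair.2) (entry σ s) := by
  have key : ∀ a b k : ℕ, mv a (k, a, b) = mv b (k, a, b) := by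
    intro a b k
    by_cases h : b = a
    · rw [h]
    · simp [mv, h]
  unfold entry
  split_ifs
  · exact key _ _ _
  · exact (key _ _ _).symm

theorem entry_lo (σ : St) (s : ℕ) (h : cond σ s = true) : s.unpair.1 < col (entry σ s).2.1 := by
  have h1 : s.unpair.1 < col (L σ s.unpair.2.unpair.1) := by
    simp only [cond, Bool.and_eq_true, decide_eq_true_eq] at h
    exact h.2.2
  unfold entry
  split_ifs with hc
  · exact h1
  · exact h1.trans (not_le.1 hc)

theorem entry_form (σ : St) (s : ℕ) : ∃ a b, (entry σ s).2.1 = L σ a ∧ (entry σ s).2.2 = L σ b := by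
  unfold entry
  split_ifs
  · exact ⟨_, _, rfl, rfl⟩
  · exact ⟨_, _, rfl, rfl⟩

theorem L_succ (s y : ℕ) :
    (cond (st s) s = true ∧ L (st (s + 1)) y = mv (L (st s) y) (entry (st s) s)) ∨
      (cond (st s) s = false ∧ L (st (s + 1)) y = L (st s) y) := by
  rw [st_succ, step]
  by_cases h : cond (st s) s = true
  · left
    rw [if_pos h, L_append]
    exact ⟨h, rfl⟩
  · right
    rw [if_neg h]
    exact ⟨by simpa using h, rfl⟩

theorem ker_succ {s x y : ℕ} (h : L (st s) x = L (st s) y) :
    L (st (s + 1)) x = L (st (s + 1)) y := by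
  rcases L_succ s x with ⟨h1, h2⟩ | ⟨h1, h2⟩ <;> rcases L_succ s y with ⟨h3, h4⟩ | ⟨h3, h4⟩
  · rw [h2, h4, h]
  · rw [h1] at h3; exact absurd h3 (by simp)
  · rw [h1] at h3; exact absurd h3 (by simp)
  · rw [h2, h4, h]

theorem ker_mono {s s' x y : ℕ} (hs : s ≤ s') (h : L (st s) x = L (st s) y) :
    L (st s') x = L (st s') y := by
  induction s', hs using Nat.le_induction with
  | base => exact h
  | succ n _ ih => exact ker_succ ih

theorem mv_col {v : ℕ} {t : ℕ × ℕ × ℕ} (h : col t.2.2 ≤ col t.2.1) : col (mv v t) ≤ col v := by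
  unfold mv
  split_ifs with hv
  · rw [hv]; exact h
  · exact le_rfl

theorem col_L_le (s y : ℕ) : col (L (st s) y) ≤ col y := by
  induction s with
  | zero => exact le_rfl
  | succ s ih =>
    rcases L_succ s y with ⟨_, h2⟩ | ⟨_, h2⟩
    · rw [h2]; exact (mv_col (entry_col _ _)).trans ih
    · rw [h2]; exact ih

theorem idem (s y : ℕ) : L (st s) (L (st s) y) = L (st s) y := by
  induction s generalizing y with
  | zero => rfl
  | succ s ih =>
    rcases L_succ s y with ⟨h1, h2⟩ | ⟨h1, h2⟩
    · rcases L_succ s (L (st (s + 1)) y) with ⟨_, h4⟩ | ⟨h3, _⟩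
      · rw [h4, h2]
        obtain ⟨a, b, ha, hb⟩ := entry_form (st s) s
        by_cases hv : L (st s) y = (entry (st s) s).2.1
        · have e1 : mv (L (st s) y) (entry (st s) s) = L (st s) b := by
            unfold mv; rw [if_pos hv, hb]
          rw [e1, ih b]
          unfold mv
          split_ifs
          · exact hb
          · rfl
        · have e1 : mv (L (st s) y) (entry (st s) s) = L (st s) y := by
            unfold mv; rw [if_neg hv]
          rw [e1, ih y, e1]
      · rw [h1] at h3; exact absurd h3 (by simp)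
    · rcases L_succ s (L (st (s + 1)) y) with ⟨h3, _⟩ | ⟨_, h4⟩
      · rw [h1] at h3; exact absurd h3 (by simp)
      · rw [h4, h2, ih y]

/-- numbers of column `≤ k` are not moved by actors `≥ k` -/
theorem L_small {s k u : ℕ} (hu : col u ≤ k) (hs : k ≤ s.unpair.1) :
    L (st (s + 1)) u = L (st s) u := by
  rcases L_succ s u with ⟨h1, h2⟩ | ⟨_, h2⟩
  · rw [h2]
    have h3 := entry_lo _ _ h1
    have h4 := col_L_le s u
    unfold mv
    rw [if_neg]
    intro h
    rw [← h] at h3
    omega
  · exact h2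

theorem memK_succ {s k : ℕ} (h : memK (st s) k = true) : memK (st (s + 1)) k = true := by
  rw [st_succ, step]
  split_ifs
  · rw [memK_append, h, Bool.true_or]
  · exact h

theorem memK_mono {s s' k : ℕ} (hs : s ≤ s') (h : memK (st s) k = true) :
    memK (st s') k = true := by
  induction s', hs using Nat.le_induction with
  | base => exact h
  | succ n _ ih => exact memK_succ ih

theorem memK_act {s : ℕ} (h : cond (st s) s = true) : memK (st (s + 1)) s.unpair.1 = true := by
  rw [st_succ, step, if_pos h, memK_append, entry_fst]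
  simp

theorem cond_memK {s : ℕ} (h : cond (st s) s = true) : memK (st s) s.unpair.1 = false := by
  simp only [cond, Bool.and_eq_true, Bool.not_eq_true'] at h
  exact h.1

theorem exists_act {s k : ℕ} (h : memK (st s) k = true) :
    ∃ s', cond (st s') s' = true ∧ s'.unpair.1 = k := by
  induction s with
  | zero => simp [st_zero, memK] at h
  | succ s ih =>
    by_cases hc : cond (st s) s = true
    · rw [st_succ, step, if_pos hc, memK_append, entry_fst, Bool.or_eq_true,
        decide_eq_true_eq] at h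
      rcases h with h | h
      · exact ih h
      · exact ⟨s, hc, h⟩
    · rw [st_succ, step, if_neg hc] at h
      exact ih h

/-- after some stage `k` does not act -/
theorem stable (k : ℕ) : ∃ s₀, ∀ s, s₀ ≤ s → s.unpair.1 = k → cond (st s) s = false := by
  by_cases h : ∃ s, memK (st s) k = true
  · obtain ⟨s₀, h0⟩ := h
    refine ⟨s₀, fun s hs hk => ?_⟩
    by_contra hc
    rw [Bool.not_eq_false] at hc
    have h1 := cond_memK hc
    rw [hk, memK_mono hs h0] at h1
    exact absurd h1 (by simp)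
  · refine ⟨0, fun s _ hk => ?_⟩
    by_contra hc
    rw [Bool.not_eq_false] at hc
    exact h ⟨s + 1, hk ▸ memK_act hc⟩

theorem stable_lt (k : ℕ) : ∃ s₀, ∀ s, s₀ ≤ s → s.unpair.1 < k → cond (st s) s = false := by
  induction k with
  | zero => exact ⟨0, fun s _ h => absurd h (Nat.not_lt_zero _)⟩
  | succ k ih =>
    obtain ⟨a, ha⟩ := ih
    obtain ⟨b, hb⟩ := stable k
    refine ⟨max a b, fun s hs h => ?_⟩
    rcases Nat.lt_succ_iff_lt_or_eq.1 h with h | h
    · exact ha s ((le_max_left _ _).trans hs) h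
    · exact hb s ((le_max_right _ _).trans hs) h

theorem L_const {k s₀ : ℕ} (h0 : ∀ s, s₀ ≤ s → s.unpair.1 < k → cond (st s) s = false)
    {u : ℕ} (hu : col u ≤ k) {s : ℕ} (hs : s₀ ≤ s) : L (st s) u = L (st s₀) u := by
  induction s, hs using Nat.le_induction with
  | base => rfl
  | succ n hn ih =>
    rw [← ih]
    rcases Nat.lt_or_ge n.unpair.1 k with h | h
    · rcases L_succ n u with ⟨h1, _⟩ | ⟨_, h2⟩
      · rw [h0 n hn h] at h1; exact absurd h1 (by simp)
      · exact h2
    · exact L_small hu h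

/-- the numbers which occur in the state -/
def sup (σ : St) : Finset ℕ := (σ.map fun t => t.2.1).toFinset ∪ (σ.map fun t => t.2.2).toFinset

theorem L_sup (σ : St) (y : ℕ) : L σ y = y ∨ (y ∈ sup σ ∧ L σ y ∈ sup σ) := by
  induction σ using List.reverseRecOn with
  | nil => exact Or.inl rfl
  | append_singleton σ t ih =>
    have hsub : ∀ z, z ∈ sup σ → z ∈ sup (σ ++ [t]) := by
      intro z hz
      simp only [sup, Finset.mem_union, List.mem_toFinset, List.mem_map, List.mem_append,
        List.mem_singleton] at hz ⊢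
      rcases hz with ⟨a, ha, rfl⟩ | ⟨a, ha, rfl⟩
      · exact Or.inl ⟨a, Or.inl ha, rfl⟩
      · exact Or.inr ⟨a, Or.inl ha, rfl⟩
    have hhi : t.2.1 ∈ sup (σ ++ [t]) := by
      simp only [sup, Finset.mem_union, List.mem_toFinset, List.mem_map, List.mem_append,
        List.mem_singleton]
      exact Or.inl ⟨t, Or.inr rfl, rfl⟩
    have hlo : t.2.2 ∈ sup (σ ++ [t]) := by
      simp only [sup, Finset.mem_union, List.mem_toFinset, List.mem_map, List.mem_append,
        List.mem_singleton]
      exact Or.inr ⟨t, Or.inr rfl, rfl⟩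
    rw [L_append, mv]
    split_ifs with h
    · right
      refine ⟨?_, hlo⟩
      rcases ih with ih | ⟨ih, _⟩
      · rw [← ih, h]; exact hhi
      · exact hsub _ ih
    · rcases ih with ih | ⟨ih, ih'⟩
      · exact Or.inl ih
      · exact Or.inr ⟨hsub _ ih, hsub _ ih'⟩

/-! ### The ceer -/

def E : Ceer where
  r x y := ∃ s, L (st s) x = L (st s) y
  eqv := by
    refine ⟨fun _ => ⟨0, rfl⟩, ?_, ?_⟩
    · rintro x y ⟨s, h⟩
      exact ⟨s, h.symm⟩
    · rintro x y z ⟨s, h⟩ ⟨s', h'⟩
      exact ⟨max s s', (ker_mono (le_max_left _ _) h).trans (ker_mono (le_max_right _ _) h')⟩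
  re := by
    have h1 : Computable fun q : (ℕ × ℕ) × ℕ => L (st q.2) q.1.1 :=
      (primrec_L.comp (primrec_st.comp Primrec.snd) (Primrec.fst.comp Primrec.fst)).to_comp
    have h2 : Computable fun q : (ℕ × ℕ) × ℕ => L (st q.2) q.1.2 :=
      (primrec_L.comp (primrec_st.comp Primrec.snd) (Primrec.snd.comp Primrec.fst)).to_comp
    exact re_ex (p := fun q : (ℕ × ℕ) × ℕ => L (st q.2) q.1.1 = L (st q.2) q.1.2)
      (dec_eq h1 h2).to_re

theorem E_L (s x : ℕ) : E.r x (L (st s) x) := ⟨s, (idem s x).symm⟩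

def Q (k u : ℕ) : Prop := col u ≤ k

theorem code_of_re {W : ℕ → Prop} (hW : REPred W) :
    ∃ c : Code, ∀ x, W x ↔ ∃ t, (Code.evaln t c x).isSome = true := by
  obtain ⟨c, hc⟩ := Code.exists_code.1 hW
  refine ⟨c, fun x => ?_⟩
  have h2 : W x ↔ (Code.eval c x).Dom := by
    rw [hc]
    simp [Part.dom_iff_mem, Part.assert]
  rw [h2, Part.dom_iff_mem]
  constructor
  · rintro ⟨y, hy⟩
    obtain ⟨k, hk⟩ := Code.evaln_complete.1 hy
    exact ⟨k, Option.isSome_iff_exists.2 ⟨y, hk⟩⟩
  · rintro ⟨k, hk⟩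
    obtain ⟨y, hy⟩ := Option.isSome_iff_exists.1 hk
    exact ⟨y, Code.evaln_sound hy⟩

theorem dich (W : ℕ → Prop) (hW : REPred W) :
    (∃ k, ∀ x, W x → ∃ u, Q k u ∧ E.r x u) ∨ ∀ i, ∃ x, W x ∧ E.r x i := by
  by_cases h : ∃ k, ∀ x, W x → ∃ u, Q k u ∧ E.r x u
  · exact Or.inl h
  right
  intro i
  obtain ⟨c, hc⟩ := code_of_re hW
  push Not at h
  obtain ⟨x, hx, hx'⟩ := h (Nat.pair (Encodable.encode c) i)
  obtain ⟨t, ht⟩ := (hc x).1 hx
  have hmem : ∃ s, memK (st s) (Nat.pair (Encodable.encode c) i) = true := by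
    by_cases hm : memK (st (Nat.pair (Nat.pair (Encodable.encode c) i) (Nat.pair x t)))
        (Nat.pair (Encodable.encode c) i) = true
    · exact ⟨_, hm⟩
    · refine ⟨Nat.pair (Nat.pair (Encodable.encode c) i) (Nat.pair x t) + 1, ?_⟩
      have hcol : Nat.pair (Encodable.encode c) i <
          col (L (st (Nat.pair (Nat.pair (Encodable.encode c) i) (Nat.pair x t))) x) := by
        by_contra hcon
        exact hx' _ (not_lt.1 hcon) (E_L _ x)
      have hact := memK_act (s := Nat.pair (Nat.pair (Encodable.encode c) i) (Nat.pair x t)) (by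
        simp only [cond, Nat.unpair_pair, Denumerable.ofNat_encode, Bool.and_eq_true,
          Bool.not_eq_true', decide_eq_true_eq]
        exact ⟨by simpa using hm, ht, hcol⟩)
      simpa only [Nat.unpair_pair] using hact
  obtain ⟨s, hs⟩ := hmem
  obtain ⟨s', h1, h2⟩ := exists_act hs
  have h3 : (Code.evaln s'.unpair.2.unpair.2 c s'.unpair.2.unpair.1).isSome = true := by
    have := h1
    simp only [cond, Bool.and_eq_true] at this
    have h4 := this.2.1
    rw [h2, Nat.unpair_pair] at h4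
    simpa only [Denumerable.ofNat_encode] using h4
  refine ⟨s'.unpair.2.unpair.1, (hc _).2 ⟨_, h3⟩, s' + 1, ?_⟩
  have h5 := entry_merge (st s') s'
  rw [h2, Nat.unpair_pair] at h5
  rcases L_succ s' s'.unpair.2.unpair.1 with ⟨_, h6⟩ | ⟨h6, _⟩
  · rcases L_succ s' i with ⟨_, h7⟩ | ⟨h7, _⟩
    · rw [h6, h7]
      exact h5
    · rw [h1] at h7; exact absurd h7 (by simp)
  · rw [h1] at h6; exact absurd h6 (by simp)

theorem fin (k : ℕ) :
    ∃ F : Finset ℕ, ∀ u v, Q k u → Q k v → u ≠ v → E.r u v → u ∈ F ∧ v ∈ F := by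
  obtain ⟨s₀, h0⟩ := stable_lt k
  refine ⟨sup (st s₀), fun u v hu hv huv hE => ?_⟩
  obtain ⟨s, hs⟩ := hE
  have h1 := ker_mono (le_max_left s s₀) hs
  rw [L_const h0 hu (le_max_right s s₀), L_const h0 hv (le_max_right s s₀)] at h1
  rcases L_sup (st s₀) u with h2 | ⟨h2, h2'⟩ <;> rcases L_sup (st s₀) v with h3 | ⟨h3, h3'⟩
  · exact absurd (h2.symm.trans (h1.trans h3)) huv
  · exact ⟨by rw [← h2, h1]; exact h3', h3⟩
  · exact ⟨h2, by rw [← h3, ← h1]; exact h2'⟩
  · exact ⟨h2, h3⟩

theorem out (k : ℕ) :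
    ∃ p : ℕ → ℕ, (∀ n u, Q k u → ¬ E.r (p n) u) ∧ ∀ n m, n ≠ m → ¬ E.r (p n) (p m) := by
  obtain ⟨F, hF⟩ := fin (k + 1)
  have hcol : ∀ n, col (Nat.pair (k + 1) n) = k + 1 := fun n => by simp [col]
  have hnot : ∀ n, Nat.pair (k + 1) (F.sup id + 1 + n) ∉ F := by
    intro n hn
    have h1 : Nat.pair (k + 1) (F.sup id + 1 + n) ≤ F.sup id := Finset.le_sup (f := id) hn
    have h2 := Nat.right_le_pair (k + 1) (F.sup id + 1 + n)
    omega
  refine ⟨fun n => Nat.pair (k + 1) (F.sup id + 1 + n), fun n u hu hE => ?_,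
    fun n m hnm hE => ?_⟩
  · have hne : Nat.pair (k + 1) (F.sup id + 1 + n) ≠ u := by
      rintro rfl
      simp only [Q, hcol] at hu
      omega
    exact hnot n (hF _ _ (hcol _).le (le_trans hu (Nat.le_succ k)) hne hE).1
  · have hne : Nat.pair (k + 1) (F.sup id + 1 + n) ≠ Nat.pair (k + 1) (F.sup id + 1 + m) := by
      intro h
      have := (Nat.pair_eq_pair.1 h).2
      omega
    exact hnot n (hF _ _ (hcol _).le (hcol _).le hne hE).1

theorem light : Red Ceer.ident E := by
  refine ⟨fun n => Nat.pair 0 n, (Primrec₂.natPair.comp (Primrec.const 0) Primrec.id).to_comp,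
    fun x y => ?_⟩
  have h0 : ∀ s, 0 ≤ s → s.unpair.1 < 0 → cond (st s) s = false :=
    fun s _ h => absurd h (Nat.not_lt_zero _)
  have hcol : ∀ n, col (Nat.pair 0 n) ≤ 0 := fun n => by simp [col]
  constructor
  · intro h
    have h' : x = y := h
    rw [h']
    exact E.eqv.refl _
  · rintro ⟨s, hs⟩
    have h1 := L_const h0 (hcol x) (Nat.zero_le s)
    have h2 := L_const h0 (hcol y) (Nat.zero_le s)
    have h3 : L (st 0) (Nat.pair 0 x) = L (st 0) (Nat.pair 0 y) := h1.symm.trans (hs.trans h2)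
    exact (Nat.pair_eq_pair.1 h3).2

end THETA

theorem tTHETA : T_THETA := by
  refine ⟨THETA.E, THETA.Q, ?_, ?_, THETA.dich, THETA.fin, THETA.out, THETA.light⟩
  · intro k
    have : PrimrecPred fun u : ℕ => THETA.col u ≤ k :=
      Primrec.nat_le.comp THETA.primrec_col (Primrec.const k)
    exact this.computablePred
  · intro k l u hkl hu
    exact le_trans hu hkl

end Pool.Agent.CeerI
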