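import Pool.Agent.CeerI.Final
import Pool.Agent.CeerI.SPLIT
import Pool.Agent.CeerI.IDAT
import Pool.Agent.CeerI.IDJ
import Pool.Agent.CeerI.DARK2
import Pool.Agent.CeerI.D1
import Pool.Agent.CeerI.TH2
import Pool.Agent.CeerI.NOJ
import Pool.Agent.CeerI.ORBIT
import Pool.Agent.CeerI.THETA
import Pool.Agent.CeerI.SIMPLE

/-!
# MP_58a0a5_lc: all parts together
-/

open FirstOrder FirstOrder.Language

namespace Pool.Agent.CeerI

/-- The formula `phi` defines the degree of `Id`. -/
theorem phi_defines (d : CeersI) :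
    @Formula.Realize Language.order CeersI (orderStructure CeersI) (Fin 1) phi (fun _ => d) ↔
      d = deg Ceer.ident :=
  main tSPLIT tIDAT tIDJ tDARK2 (tD1 tORBIT) tTH2 (tNOJ tORBIT tTH2) tTHETA tSIMPLE d

end Pool.Agent.CeerI
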