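import Pool.Agent.CeerI.Basic

/-!
# MP_58a0a5_lc: targets of the jobs CEER-*

Proofs: `Blueprint.lean.txt`.
-/

namespace Pool.Agent.CeerI

open Ceer

/-- SPLIT: the decomposition property. -/
def T_SPLIT : Prop := ∀ S R Q : Ceer, S ≤ R.sum Q →
  ∃ S₁ S₂ : Ceer, S₁ ≤ R ∧ S₂ ≤ Q ∧ S ≤ S₁.sum S₂ ∧ S₁.sum S₂ ≤ S

/-- IDAT: `Id` is an atom, `Id ⊕ Id ≡ Id`. -/
def T_IDAT : Prop := ¬ ident ≤ idn 1 ∧ (∀ R : Ceer, R ≤ ident → R ≤ idn 1 ∨ ident ≤ R) ∧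
  ident.sum ident ≤ ident

/-- IDJ: `R ⊕ Id` is the join of `R` and `Id` if `R` is not above `Id`. -/
def T_IDJ : Prop := ∀ R Z : Ceer, ¬ ident ≤ R → R ≤ Z → ident ≤ Z → R.sum ident ≤ Z

/-- DARK2: for an atom `X` all of whose classes are computable, `R ⊕ X` is below every common upper
bound of `R` and `X ⊕ X` unless `X ⊕ X ≤ R`. -/
def T_DARK2 : Prop := ∀ X : Ceer, (∀ W : Ceer, W ≤ X → W ≤ idn 1 ∨ X ≤ W) → AllComp X →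
  ∀ R Z : Ceer, ¬ X.sum X ≤ R → R ≤ Z → X.sum X ≤ Z → R.sum X ≤ Z

/-- ORBIT: classes missed by a reduction from a dark ceer `X` to `X ⊕ Id_{k+1}` are computable, and
there are at most `k + 1` of them. -/
def T_ORBIT : Prop := ∀ X : Ceer, ¬ Red ident X → ∀ (k : ℕ) (h : ℕ → ℕ), Computable h →
  (∀ x y, X.r x y ↔ (X.sum (idn (k + 1))).r (h x) (h y)) →
  (∀ a, (∀ n, h n % 2 = 0 → ¬ X.r (h n / 2) a) → ComputablePred (X.r a)) ∧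
  ∀ a : Fin (k + 2) → ℕ, (∀ i n, h n % 2 = 0 → ¬ X.r (h n / 2) (a i)) →
    ∃ i j, i ≠ j ∧ X.r (a i) (a j)

/-- D1: infinite dark ceers are not idempotent. -/
def T_D1 : Prop := ∀ X : Ceer, ¬ ident ≤ X → ¬ X ≤ idn 1 → ¬ X.sum X ≤ X

/-- The properties of the ceer constructed in THETA. -/
structure IsTheta (E : Ceer) (Q : ℕ → ℕ → Prop) : Prop where
  dec : ∀ k, ComputablePred (Q k)
  mono : ∀ k l u, k ≤ l → Q k u → Q l u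
  dich : ∀ W : ℕ → Prop, REPred W →
    (∃ k, ∀ x, W x → ∃ u, Q k u ∧ E.r x u) ∨ ∀ i, ∃ x, W x ∧ E.r x i
  fin : ∀ k, ∃ F : Finset ℕ, ∀ u v, Q k u → Q k v → u ≠ v → E.r u v → u ∈ F ∧ v ∈ F
  out : ∀ k, ∃ p : ℕ → ℕ, (∀ n u, Q k u → ¬ E.r (p n) u) ∧ ∀ n m, n ≠ m → ¬ E.r (p n) (p m)
  light : Red ident E

/-- THETA: the construction. -/
def T_THETA : Prop := ∃ (E : Ceer) (Q : ℕ → ℕ → Prop), IsTheta E Q

/-- TH2: consequences for the degree of `E`. -/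
def T_TH2 : Prop := ∀ (E : Ceer) (Q : ℕ → ℕ → Prop), IsTheta E Q →
  (∀ R : Ceer, R ≤ E → R ≤ ident ∨ E ≤ R) ∧ (∀ a, ¬ ComputablePred (E.r a)) ∧ ¬ E ≤ ident ∧
    ¬ E.sum ident ≤ E

/-- NOJ: a dark ceer with a noncomputable class and `E` have an upper bound which is not above
`X ⊕ E`. -/
def T_NOJ : Prop := ∀ (E : Ceer) (Q : ℕ → ℕ → Prop), IsTheta E Q → ∀ X : Ceer, ¬ ident ≤ X →
  ¬ AllComp X → ∃ Z : Ceer, X ≤ Z ∧ E ≤ Z ∧ ¬ X.sum E ≤ Z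

/-- SIMPLE: there is a dark ceer with a noncomputable class. -/
def T_SIMPLE : Prop := ∃ R : Ceer, ¬ ident ≤ R ∧ ¬ AllComp R

end Pool.Agent.CeerI
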